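import Mathlib

set_option autoImplicit false

namespace Pool.Agent.Q41.W

open Finset Complex

/-- `exp (2 π i θ)` -/
noncomputable def ex (θ : ℝ) : ℂ := Complex.exp ((2 * Real.pi * θ : ℝ) * I)

lemma ex_add (a b : ℝ) : ex (a + b) = ex a * ex b := by
  unfold ex
  rw [← Complex.exp_add]
  congr 1
  push_cast
  ring

lemma ex_zero : ex 0 = 1 := by simp [ex]

lemma ex_int (n : ℤ) : ex n = 1 := by
  unfold ex
  rw [Complex.exp_eq_one_iff]
  exact ⟨n, by push_cast; ring⟩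

lemma norm_ex (a : ℝ) : ‖ex a‖ = 1 := by
  unfold ex
  exact Complex.norm_exp_ofReal_mul_I _

lemma ex_re (a : ℝ) : (ex a).re = Real.cos (2 * Real.pi * a) := by
  unfold ex
  exact Complex.exp_ofReal_mul_I_re _

lemma ex_im (a : ℝ) : (ex a).im = Real.sin (2 * Real.pi * a) := by
  unfold ex
  exact Complex.exp_ofReal_mul_I_im _

lemma ex_sum {ι : Type*} (s : Finset ι) (f : ι → ℝ) : ex (∑ i ∈ s, f i) = ∏ i ∈ s, ex (f i) := by
  classical
  induction s using Finset.induction_on with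
  | empty => simp [ex_zero]
  | insert a s ha ih => rw [sum_insert ha, prod_insert ha, ex_add, ih]

lemma ex_nsmul (n : ℕ) (a : ℝ) : ex (n * a) = ex a ^ n := by
  induction n with
  | zero => simp [ex_zero]
  | succ n ih => rw [pow_succ, ← ih, ← ex_add]; congr 1; push_cast; ring

lemma ex_eq_one_iff (a : ℝ) : ex a = 1 ↔ ∃ n : ℤ, a = n := by
  unfold ex
  rw [Complex.exp_eq_one_iff]
  constructor
  · rintro ⟨n, hn⟩
    refine ⟨n, ?_⟩
    have h2 : (2 * Real.pi * I : ℂ) ≠ 0 := by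
      simp [Real.pi_ne_zero]
    have : (2 * Real.pi * I : ℂ) * (a : ℂ) = (2 * Real.pi * I : ℂ) * (n : ℂ) := by
      have := hn
      push_cast at this
      linear_combination this
    have := mul_left_cancel₀ h2 this
    exact_mod_cast this
  · rintro ⟨n, rfl⟩
    exact ⟨n, by push_cast; ring⟩

/-- distance to the nearest integer -/
noncomputable def nd (θ : ℝ) : ℝ := |θ - round θ|

lemma nd_nonneg (θ : ℝ) : 0 ≤ nd θ := abs_nonneg _

lemma nd_le_half (θ : ℝ) : nd θ ≤ 1 / 2 := abs_sub_round θ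

lemma nd_le (θ : ℝ) (n : ℤ) : nd θ ≤ |θ - n| := round_le θ n

lemma nd_sub_le (a b : ℝ) : nd a - |a - b| ≤ nd b := by
  have h1 := nd_le a (round b)
  have h2 : |a - round b| ≤ |a - b| + |b - round b| := by
    have := abs_add_le (a - b) (b - round b)
    simpa using this
  unfold nd at *
  linarith

/-- if `p ∤ u` then `u / p` is at distance `≥ 1 / p` from the integers -/
lemma nd_div_ge (p : ℕ) (hp : 0 < p) (u : ℤ) (h : ¬ (p : ℤ) ∣ u) : 1 / (p : ℝ) ≤ nd (u / p) := by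
  unfold nd
  have hp' : (0 : ℝ) < p := by exact_mod_cast hp
  set n := round ((u : ℝ) / p)
  have e : (u : ℝ) / p - n = ((u - n * p : ℤ) : ℝ) / p := by
    push_cast
    field_simp
  rw [e, abs_div, abs_of_pos hp']
  apply div_le_div_of_nonneg_right _ hp'.le
  have : (u - n * p : ℤ) ≠ 0 := by
    intro h0
    apply h
    exact ⟨n, by linarith⟩
  have := Int.one_le_abs this
  exact_mod_cast this

lemma cos_nd (θ : ℝ) : Real.cos (2 * Real.pi * θ) ≤ 1 - 8 * nd θ ^ 2 := by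
  have h1 : Real.cos (2 * Real.pi * θ) = Real.cos (2 * Real.pi * (θ - round θ)) := by
    have : 2 * Real.pi * (θ - round θ) = 2 * Real.pi * θ - (round θ : ℤ) * (2 * Real.pi) := by ring
    rw [this, Real.cos_sub_int_mul_two_pi]
  rw [h1]
  have h2 : |2 * Real.pi * (θ - round θ)| ≤ Real.pi := by
    rw [abs_mul, abs_of_pos (by positivity)]
    have := abs_sub_round θ
    nlinarith [Real.pi_pos]
  have h3 := Real.cos_le_one_sub_mul_cos_sq h2
  have h4 : 2 / Real.pi ^ 2 * (2 * Real.pi * (θ - round θ)) ^ 2 = 8 * nd θ ^ 2 := by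
    unfold nd
    rw [sq_abs]
    field_simp
    ring
  rw [h4] at h3
  exact h3

lemma norm_factor (ρ θ : ℝ) (h1 : 1 / 4 ≤ ρ) (h2 : ρ ≤ 3 / 4) :
    ‖((1 - ρ : ℝ) : ℂ) + (ρ : ℂ) * ex θ‖ ≤ Real.exp (-(3 / 2) * nd θ ^ 2) := by
  have hn : Complex.normSq (((1 - ρ : ℝ) : ℂ) + (ρ : ℂ) * ex θ) ≤ Real.exp (-(3 / 2) * nd θ ^ 2) ^ 2 := by
    rw [Complex.normSq_apply]
    have e1 : (((1 - ρ : ℝ) : ℂ) + (ρ : ℂ) * ex θ).re = 1 - ρ + ρ * Real.cos (2 * Real.pi * θ) := by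
      simp [ex_re]
    have e2 : (((1 - ρ : ℝ) : ℂ) + (ρ : ℂ) * ex θ).im = ρ * Real.sin (2 * Real.pi * θ) := by
      simp [ex_im]
    rw [e1, e2, ← Real.exp_nat_mul]
    have h3 := Real.sin_sq_add_cos_sq (2 * Real.pi * θ)
    have h4 := cos_nd θ
    have h5 : Real.exp ((2 : ℕ) * (-(3 / 2) * nd θ ^ 2)) ≥ 1 - 3 * nd θ ^ 2 := by
      have := Real.add_one_le_exp ((2 : ℕ) * (-(3 / 2) * nd θ ^ 2))
      push_cast at *
      linarith
    have h6 : (1 - ρ + ρ * Real.cos (2 * Real.pi * θ)) * (1 - ρ + ρ * Real.cos (2 * Real.pi * θ)) +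
        ρ * Real.sin (2 * Real.pi * θ) * (ρ * Real.sin (2 * Real.pi * θ)) =
        1 - 2 * (ρ * (1 - ρ)) * (1 - Real.cos (2 * Real.pi * θ)) := by
      linear_combination ρ ^ 2 * h3
    rw [h6]
    have h7 : 3 / 16 ≤ ρ * (1 - ρ) := by nlinarith
    have h8 : 8 * nd θ ^ 2 ≤ 1 - Real.cos (2 * Real.pi * θ) := by linarith
    have h9 : 0 ≤ nd θ ^ 2 := sq_nonneg _
    nlinarith [mul_nonneg (sub_nonneg.2 h7) h9, mul_nonneg (show (0:ℝ) ≤ ρ * (1 - ρ) by linarith) (sub_nonneg.2 h8)]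
  rw [Complex.normSq_eq_norm_sq] at hn
  exact (pow_le_pow_iff_left₀ (norm_nonneg _) (Real.exp_pos _).le (by norm_num)).1 hn

lemma sin_sub_abs (y : ℝ) (hy : |y| ≤ 1) : |Real.sin y - y| ≤ |y| ^ 3 / 4 := by
  rcases lt_trichotomy y 0 with h | h | h
  · have h1 := Real.sin_lt (show 0 < -y by linarith)
    have h2 := Real.sin_gt_sub_cube (show 0 < -y by linarith)
    have h3 : 0 < (-y) ^ 3 := pow_pos (by linarith) 3
    rw [Real.sin_neg] at h1 h2
    rw [abs_of_neg h, abs_le]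
    constructor <;> linarith
  · subst h; simp
  · have h1 := Real.sin_lt h
    have h2 := Real.sin_gt_sub_cube h
    have h3 : 0 < y ^ 3 := pow_pos h 3
    rw [abs_of_pos h, abs_le]
    constructor <;> linarith

lemma cos_ge_half (y : ℝ) (hy : |y| ≤ 1) : 1 / 2 ≤ Real.cos y := by
  have h1 := Real.one_sub_sq_div_two_le_cos (x := y)
  have h2 : y ^ 2 ≤ 1 := by
    rw [← sq_abs]
    nlinarith [abs_nonneg y]
  linarith

/-- the factor, recentred: real part at least `1 / 2` and small imaginary part -/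
lemma factor_arg (ρ θ : ℝ) (h1 : 0 ≤ ρ) (h2 : ρ ≤ 1) (hθ : |2 * Real.pi * θ| ≤ 1) :
    1 / 2 ≤ (ex (-(ρ * θ)) * (((1 - ρ : ℝ) : ℂ) + (ρ : ℂ) * ex θ)).re ∧
    |(ex (-(ρ * θ)) * (((1 - ρ : ℝ) : ℂ) + (ρ : ℂ) * ex θ)).im| ≤
      |2 * Real.pi * θ| ^ 3 / 2 * (ex (-(ρ * θ)) * (((1 - ρ : ℝ) : ℂ) + (ρ : ℂ) * ex θ)).re := by
  have e : ex (-(ρ * θ)) * (((1 - ρ : ℝ) : ℂ) + (ρ : ℂ) * ex θ) =
      ((1 - ρ : ℝ) : ℂ) * ex (-(ρ * θ)) + (ρ : ℂ) * ex ((1 - ρ) * θ) := by
    have : ex ((1 - ρ) * θ) = ex (-(ρ * θ)) * ex θ := by rw [← ex_add]; congr 1; ring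
    rw [this]; ring
  rw [e]
  set φ := 2 * Real.pi * θ with hφ
  have hre : (((1 - ρ : ℝ) : ℂ) * ex (-(ρ * θ)) + (ρ : ℂ) * ex ((1 - ρ) * θ)).re =
      (1 - ρ) * Real.cos (ρ * φ) + ρ * Real.cos ((1 - ρ) * φ) := by
    rw [Complex.add_re, Complex.re_ofReal_mul, Complex.re_ofReal_mul, ex_re, ex_re]
    congr 2
    · rw [← Real.cos_neg]; congr 1; rw [hφ]; ring
    · congr 1; rw [hφ]; ring
  have him : (((1 - ρ : ℝ) : ℂ) * ex (-(ρ * θ)) + (ρ : ℂ) * ex ((1 - ρ) * θ)).im =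
      -(1 - ρ) * Real.sin (ρ * φ) + ρ * Real.sin ((1 - ρ) * φ) := by
    rw [Complex.add_im, Complex.im_ofReal_mul, Complex.im_ofReal_mul, ex_im, ex_im]
    have : Real.sin (2 * Real.pi * -(ρ * θ)) = - Real.sin (ρ * φ) := by
      rw [← Real.sin_neg]; congr 1; rw [hφ]; ring
    rw [this]
    have : 2 * Real.pi * ((1 - ρ) * θ) = (1 - ρ) * φ := by rw [hφ]; ring
    rw [this]; ring
  have a1 : |ρ * φ| ≤ 1 := by
    rw [abs_mul, abs_of_nonneg h1]; nlinarith [abs_nonneg φ]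
  have a2 : |(1 - ρ) * φ| ≤ 1 := by
    rw [abs_mul, abs_of_nonneg (by linarith : 0 ≤ 1 - ρ)]; nlinarith [abs_nonneg φ]
  have b1 := cos_ge_half _ a1
  have b2 := cos_ge_half _ a2
  have c1 := sin_sub_abs _ a1
  have c2 := sin_sub_abs _ a2
  have d1 : |ρ * φ| ^ 3 ≤ |φ| ^ 3 := by
    apply pow_le_pow_left₀ (abs_nonneg _)
    rw [abs_mul, abs_of_nonneg h1]; nlinarith [abs_nonneg φ]
  have d2 : |(1 - ρ) * φ| ^ 3 ≤ |φ| ^ 3 := by
    apply pow_le_pow_left₀ (abs_nonneg _)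
    rw [abs_mul, abs_of_nonneg (by linarith : 0 ≤ 1 - ρ)]; nlinarith [abs_nonneg φ]
  have hR : 1 / 2 ≤ (1 - ρ) * Real.cos (ρ * φ) + ρ * Real.cos ((1 - ρ) * φ) := by nlinarith
  have hI : |-(1 - ρ) * Real.sin (ρ * φ) + ρ * Real.sin ((1 - ρ) * φ)| ≤ |φ| ^ 3 / 4 := by
    have e1 : -(1 - ρ) * Real.sin (ρ * φ) + ρ * Real.sin ((1 - ρ) * φ) =
        -((1 - ρ) * (Real.sin (ρ * φ) - ρ * φ)) + ρ * (Real.sin ((1 - ρ) * φ) - (1 - ρ) * φ) := by ring
    rw [e1]
    refine (abs_add_le _ _).trans ?_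
    rw [abs_neg, abs_mul, abs_mul, abs_of_nonneg h1, abs_of_nonneg (by linarith : 0 ≤ 1 - ρ)]
    have := mul_le_mul_of_nonneg_left (c1.trans (div_le_div_of_nonneg_right d1 (by norm_num))) (by linarith : 0 ≤ 1 - ρ)
    have := mul_le_mul_of_nonneg_left (c2.trans (div_le_div_of_nonneg_right d2 (by norm_num))) h1
    linarith
  rw [hre, him]
  refine ⟨hR, hI.trans ?_⟩
  have : 0 ≤ |φ| ^ 3 := by positivity
  nlinarith

/-- a product of complex numbers with positive real parts and small arguments has nonnegative real part -/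
lemma prod_arg {ι : Type*} (s : Finset ι) (z : ι → ℂ) (δ : ι → ℝ) (h0 : ∀ i ∈ s, 0 ≤ δ i)
    (h1 : ∀ i ∈ s, 0 ≤ (z i).re) (h2 : ∀ i ∈ s, |(z i).im| ≤ δ i * (z i).re) (h3 : 4 * ∑ i ∈ s, δ i ≤ 1) :
    0 ≤ (∏ i ∈ s, z i).re ∧ |(∏ i ∈ s, z i).im| ≤ 4 * (∑ i ∈ s, δ i) * (∏ i ∈ s, z i).re := by
  classical
  induction s using Finset.induction_on with
  | empty => simp
  | insert a s ha ih =>
    rw [sum_insert ha] at h3
    have ha0 := h0 a (mem_insert_self _ _)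
    have ha1 := h1 a (mem_insert_self _ _)
    have ha2 := h2 a (mem_insert_self _ _)
    have hs : 0 ≤ ∑ i ∈ s, δ i := sum_nonneg fun i hi => h0 i (mem_insert_of_mem hi)
    obtain ⟨i1, i2⟩ := ih (fun i hi => h0 i (mem_insert_of_mem hi)) (fun i hi => h1 i (mem_insert_of_mem hi))
      (fun i hi => h2 i (mem_insert_of_mem hi)) (by linarith)
    rw [sum_insert ha, prod_insert ha]
    set u := (z a).re
    set v := (z a).im
    set A := (∏ i ∈ s, z i).re
    set B := (∏ i ∈ s, z i).im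
    set D := ∑ i ∈ s, δ i
    set d := δ a
    rw [Complex.mul_re, Complex.mul_im]
    change 0 ≤ u * A - v * B ∧ |u * B + v * A| ≤ 4 * (d + D) * (u * A - v * B)
    have huA : 0 ≤ u * A := mul_nonneg ha1 i1
    have hvB : |v * B| ≤ d * (4 * D) * (u * A) := by
      rw [abs_mul]
      calc |v| * |B| ≤ (d * u) * (4 * D * A) := mul_le_mul ha2 i2 (abs_nonneg _) (by positivity)
        _ = d * (4 * D) * (u * A) := by ring
    have hvB' := (le_abs_self (v * B)).trans hvB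
    have hd4 : d * (4 * D) ≤ d := by nlinarith
    have hd : d ≤ 1 / 4 := by linarith
    have hre : (1 - d) * (u * A) ≤ u * A - v * B := by nlinarith
    have hre2 : (1 - d * (4 * D)) * (u * A) ≤ u * A - v * B := by nlinarith
    constructor
    · have : 0 ≤ (1 - d) * (u * A) := mul_nonneg (by linarith) huA
      linarith
    · have e1 : |u * B + v * A| ≤ (4 * D + d) * (u * A) := by
        refine (abs_add_le _ _).trans ?_
        rw [abs_mul, abs_mul, abs_of_nonneg ha1, abs_of_nonneg i1]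
        have := mul_le_mul_of_nonneg_left i2 ha1
        have := mul_le_mul_of_nonneg_right ha2 i1
        nlinarith
      refine e1.trans ?_
      have e2 : (4 * D + d) * (u * A) ≤ 4 * (d + D) * ((1 - d * (4 * D)) * (u * A)) := by
        have : (4 * D + d) ≤ 4 * (d + D) * (1 - d * (4 * D)) := by
          have h5 : d * (4 * D) ≤ 1 / 4 * (4 * D) := by nlinarith
          have h4D : 4 * D ≤ 1 := by linarith
          have h6 : 4 * (d + D) ≤ 1 := by linarith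
          nlinarith [mul_nonneg ha0 hs]
        calc (4 * D + d) * (u * A) ≤ (4 * (d + D) * (1 - d * (4 * D))) * (u * A) :=
              mul_le_mul_of_nonneg_right this huA
          _ = _ := by ring
      refine e2.trans ?_
      exact mul_le_mul_of_nonneg_left hre2 (by positivity)

end Pool.Agent.Q41.W
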