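import Pool.Agent.Q41.W.Level

set_option autoImplicit false

namespace Pool.Agent.Q41.W

open Finset

/-- partition into eight nearly equal parts -/
lemma eight (Q : Finset ℕ) (hQ : 8 ≤ Q.card) : ∃ P : Fin 8 → Finset ℕ, Qs P = Q ∧
    (∀ i j, i ≠ j → Disjoint (P i) (P j)) ∧ (∀ j, Q.card / 8 ≤ (P j).card) ∧ ∀ j, (P j).card ≤ Q.card / 8 + 1 := by
  classical
  obtain ⟨F, hF, hF8⟩ := Finpartition.exists_equipartition_card_eq Q (n := 8) (by norm_num) hQ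
  have e := (Finset.equivFinOfCardEq hF8).symm
  refine ⟨fun j => (e j : Finset ℕ), ?_, ?_, ?_, ?_⟩
  · unfold Qs
    have h1 := F.biUnion_parts
    conv_rhs => rw [← h1]
    ext p
    simp only [mem_biUnion, mem_univ, true_and, id]
    constructor
    · rintro ⟨j, hj⟩
      exact ⟨e j, (e j).2, hj⟩
    · rintro ⟨t, ht, hpt⟩
      refine ⟨e.symm ⟨t, ht⟩, ?_⟩
      simpa using hpt
  · intro i j hij
    have := F.disjoint (e i).2 (e j).2 (fun h => hij (e.injective (Subtype.ext h)))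
    exact this
  · intro j
    have := hF.average_le_card_part (e j).2
    rwa [hF8] at this
  · intro j
    have := hF.card_part_le_average_add_one (e j).2
    rwa [hF8] at this

/-- conditions on the index of a block -/
structure Cond (i : ℕ) : Prop where
  pos : 1 ≤ i
  c1 : 1179648 * (9 * (i : ℝ) ^ 2) ^ 9 ≤ 2 ^ i
  c2 : 256 * (i : ℝ) ^ 2 * 2 ^ i * (9 * (i : ℝ) ^ 2) ^ 2 ≤ (2 ^ i) ^ 2
  c3 : 2000 * (i : ℝ) ^ 2 ≤ 2 ^ i

lemma eventually_cond : ∃ i0 : ℕ, ∀ i ≥ i0, Cond i := by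
  have h1 : Filter.Tendsto (fun i : ℕ => (i : ℝ) ^ 18 / 2 ^ i) Filter.atTop (nhds 0) :=
    tendsto_pow_const_div_const_pow_of_one_lt 18 (by norm_num)
  have h2 : Filter.Tendsto (fun i : ℕ => (i : ℝ) ^ 6 / 2 ^ i) Filter.atTop (nhds 0) :=
    tendsto_pow_const_div_const_pow_of_one_lt 6 (by norm_num)
  have h3 : Filter.Tendsto (fun i : ℕ => (i : ℝ) ^ 2 / 2 ^ i) Filter.atTop (nhds 0) :=
    tendsto_pow_const_div_const_pow_of_one_lt 2 (by norm_num)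
  have e1 := h1.eventually (gt_mem_nhds (show (0 : ℝ) < 1 / (1179648 * 9 ^ 9) by norm_num))
  have e2 := h2.eventually (gt_mem_nhds (show (0 : ℝ) < 1 / (256 * 81) by norm_num))
  have e3 := h3.eventually (gt_mem_nhds (show (0 : ℝ) < 1 / 2000 by norm_num))
  obtain ⟨i0, hi0⟩ := Filter.eventually_atTop.1 (e1.and (e2.and (e3.and (Filter.eventually_ge_atTop 1))))
  refine ⟨i0, fun i hi => ?_⟩
  obtain ⟨a1, a2, a3, a4⟩ := hi0 i hi
  have hp : (0 : ℝ) < 2 ^ i := by positivity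
  rw [div_lt_iff₀ hp] at a1 a2 a3
  refine ⟨a4, ?_, ?_, ?_⟩
  · have : 1179648 * (9 * (i : ℝ) ^ 2) ^ 9 = 1179648 * 9 ^ 9 * (i : ℝ) ^ 18 := by ring
    rw [this]
    have : (1179648 * 9 ^ 9 : ℝ) * (i : ℝ) ^ 18 ≤ 1179648 * 9 ^ 9 * (1 / (1179648 * 9 ^ 9) * 2 ^ i) :=
      mul_le_mul_of_nonneg_left a1.le (by norm_num)
    refine this.trans (le_of_eq ?_)
    rw [← mul_assoc, mul_one_div_cancel (by norm_num), one_mul]
  · have : 256 * (i : ℝ) ^ 2 * 2 ^ i * (9 * (i : ℝ) ^ 2) ^ 2 = 2 ^ i * (256 * 81 * (i : ℝ) ^ 6) := by ring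
    rw [this, sq ((2 : ℝ) ^ i)]
    apply mul_le_mul_of_nonneg_left _ hp.le
    have : (256 * 81 : ℝ) * (i : ℝ) ^ 6 ≤ 256 * 81 * (1 / (256 * 81) * 2 ^ i) :=
      mul_le_mul_of_nonneg_left a2.le (by norm_num)
    refine this.trans (le_of_eq ?_)
    rw [← mul_assoc, mul_one_div_cancel (by norm_num), one_mul]
  · linarith

/-- the level lemma for a dense dyadic block of primes -/
theorem block_level (i : ℕ) (hi : Cond i) (Q : Finset ℕ) (hprime : ∀ p ∈ Q, p.Prime) (hlo : ∀ p ∈ Q, 2 ^ i ≤ p)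
    (hhi : ∀ p ∈ Q, p < 2 ^ (i + 1)) (hdense : 2 ^ i ≤ i ^ 2 * Q.card) (M : ℕ) (hM : 0 < M)
    (hcop : Nat.Coprime (∏ p ∈ Q, p) M) (hMle : M ≤ 256 * i ^ 2 * 2 ^ i) (k : ℤ)
    (h1 : (∑ p ∈ Q, 1 / (p : ℝ)) / 32 ≤ (k : ℝ) / (M * (∏ p ∈ Q, p : ℕ)))
    (h2 : (k : ℝ) / (M * (∏ p ∈ Q, p : ℕ)) ≤ ∑ p ∈ Q, 1 / (p : ℝ)) :
    ∃ D : Finset ℕ, (∀ d ∈ D, d ∣ M * (∏ p ∈ Q, p) ∧ ∃ p ∈ Q, p ∣ d) ∧
      ∑ d ∈ D, 1 / (d : ℝ) = (k : ℝ) / (M * (∏ p ∈ Q, p : ℕ)) := by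
  have c1 := hi.c1
  have c2 := hi.c2
  have c3 := hi.c3
  have hi1 : (1 : ℝ) ≤ i := by exact_mod_cast hi.pos
  have hi2 : (1 : ℝ) ≤ (i : ℝ) ^ 2 := one_le_pow₀ hi1
  have hi0 : (0 : ℝ) < (i : ℝ) ^ 2 := by linarith
  have hp : (0 : ℝ) < 2 ^ i := by positivity
  have hdR : (2 : ℝ) ^ i ≤ (i : ℝ) ^ 2 * Q.card := by exact_mod_cast hdense
  have hQ8 : (2000 : ℝ) ≤ Q.card := by
    have : 2000 * (i : ℝ) ^ 2 ≤ Q.card * (i : ℝ) ^ 2 := by linarith
    exact le_of_mul_le_mul_right this hi0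
  have hQ8' : 8 ≤ Q.card := by
    have : (8 : ℝ) ≤ Q.card := by linarith
    exact_mod_cast this
  obtain ⟨P, hPQ, hdisj, hcl, hcu⟩ := eight Q hQ8'
  have hPsub : ∀ j, P j ⊆ Q := by
    intro j p hpj
    rw [← hPQ]
    exact mem_biUnion.2 ⟨j, mem_univ j, hpj⟩
  have hQx : Q.card ≤ 2 ^ i := by
    have : Q ⊆ Finset.Ico (2 ^ i) (2 ^ (i + 1)) := fun p hp => Finset.mem_Ico.2 ⟨hlo p hp, hhi p hp⟩
    have := Finset.card_le_card this
    rw [Nat.card_Ico, pow_succ] at this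
    omega
  have hB : Blk (2 ^ i) (9 * (i : ℝ) ^ 2) P := by
    refine ⟨by linarith, ?_, by push_cast; exact c1, fun j p hp => hprime p (hPsub j hp),
      fun j p hp => hlo p (hPsub j hp), fun j p hp => ?_, hdisj, fun j => ?_⟩
    · have e1 : (2 * ((2 ^ i : ℕ) : ℝ)) = 2 ^ (i + 1) := by push_cast; ring
      rw [e1, Real.log_pow]
      have h3 : Real.log 2 ≤ 1 := by
        have := Real.log_two_lt_d9
        linarith
      have h4 : ((i + 1 : ℕ) : ℝ) * Real.log 2 ≤ ((i + 1 : ℕ) : ℝ) * 1 := mul_le_mul_of_nonneg_left h3 (by positivity)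
      push_cast at h4 ⊢
      nlinarith
    · have := hhi p (hPsub j hp)
      rw [pow_succ] at this
      omega
    · push_cast
      rw [div_le_iff₀ (by positivity)]
      have h3 : Q.card < 8 * (Q.card / 8 + 1) := by omega
      have h4 : Q.card < 8 * ((P j).card + 1) := lt_of_lt_of_le h3 (by have := hcl j; omega)
      have h5 : (Q.card : ℝ) ≤ 8 * ((P j).card + 1) := by exact_mod_cast h4.le
      have h6 : (8 : ℝ) * ((P j).card + 1) ≤ 9 * (P j).card := by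
        have h7 : 8 ≤ (P j).card := by
          have : 2000 ≤ Q.card := by exact_mod_cast hQ8
          have := hcl j
          omega
        have h8 : (8 : ℝ) ≤ (P j).card := by exact_mod_cast h7
        linarith
      have h9 : (Q.card : ℝ) ≤ 9 * (P j).card := h5.trans h6
      calc (2 : ℝ) ^ i ≤ (i : ℝ) ^ 2 * Q.card := hdR
        _ ≤ (i : ℝ) ^ 2 * (9 * (P j).card) := mul_le_mul_of_nonneg_left h9 hi0.le
        _ = (P j).card * (9 * (i : ℝ) ^ 2) := by ring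
  have h4 : ∀ j, 4 * (P j).card ≤ 2 ^ i := by
    intro j
    have := hcu j
    have h5 : (2000 : ℝ) ≤ 2 ^ i := by nlinarith
    have h6 : 2000 ≤ 2 ^ i := by exact_mod_cast h5
    omega
  have := level hB h4 M hM (by rw [hPQ]; exact hcop) (by
    have h5 : (M : ℝ) ≤ 256 * (i : ℝ) ^ 2 * 2 ^ i := by exact_mod_cast hMle
    push_cast
    exact (mul_le_mul_of_nonneg_right h5 (by positivity)).trans c2) k (by rw [hPQ]; exact h1) (by rw [hPQ]; exact h2)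
  rw [hPQ] at this
  exact this

end Pool.Agent.Q41.W
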