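import Pool.Agent.Q41.W.Spread

set_option autoImplicit false

namespace Pool.Agent.Q41.W

open Finset Complex

variable {x : ℕ} {Λ : ℝ} {P : Fin 8 → Finset ℕ}

/-- number of `h < R` in a residue class mod `q`, `R = q * s` -/
lemma card_class (q s : ℕ) (r : ℤ) :
    ((range (q * s)).filter (fun h : ℕ => (q : ℤ) ∣ h - r)).card ≤ s := by
  classical
  have : ((range (q * s)).filter (fun h : ℕ => (q : ℤ) ∣ h - r)).card ≤ (range s).card := by
    apply Finset.card_le_card_of_injOn (fun h => h / q)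
    · intro h hh
      rw [mem_coe, mem_filter, mem_range] at hh
      rw [mem_coe, mem_range]
      exact Nat.div_lt_of_lt_mul hh.1
    · intro h1 hh1 h2 hh2 heq
      rw [mem_coe, mem_filter] at hh1 hh2
      have heq' : h1 / q = h2 / q := heq
      have hd : (q : ℤ) ∣ (h1 : ℤ) - h2 := by
        have := dvd_sub hh1.2 hh2.2
        have e : (h1 : ℤ) - h2 = h1 - r - (h2 - r) := by ring
        rw [e]; exact this
      have hm : h2 % q = h1 % q := (Nat.modEq_iff_dvd.2 hd)
      rw [← Nat.div_add_mod h1 q, ← Nat.div_add_mod h2 q, heq', hm]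
  simpa using this

lemma primes_dvd (s : Finset ℕ) (hs : ∀ p ∈ s, p.Prime) (z : ℤ) (h : ∀ p ∈ s, (p : ℤ) ∣ z) :
    (∏ p ∈ s, p) ∣ z.natAbs := by
  apply Finset.prod_primes_dvd
  · intro p hp
    exact (hs p hp).prime
  · intro p hp
    exact Int.natCast_dvd.1 (h p hp)

lemma exp_small (n : ℕ) (u : ℝ) (hu : 0 ≤ u) (h : n * u ≤ 1) : (1 + u) ^ n - 1 ≤ 2 * (n * u) := by
  have h1 : (1 + u) ^ n ≤ Real.exp (n * u) := by
    rw [Real.exp_nat_mul]
    apply pow_le_pow_left₀ (by linarith)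
    have := Real.add_one_le_exp u
    linarith
  have h0 : (0 : ℝ) ≤ n * u := by positivity
  have h2 := Real.abs_exp_sub_one_le (x := n * u) (by rw [abs_of_nonneg h0]; exact h)
  rw [abs_of_nonneg h0] at h2
  have := (le_abs_self _).trans h2
  linarith

lemma sum_powerset_exp (Q : Finset ℕ) (u : ℝ) :
    ∑ B ∈ Q.powerset.erase ∅, u ^ B.card = (1 + u) ^ Q.card - 1 := by
  classical
  have h1 := Finset.sum_pow_mul_eq_add_pow u 1 Q
  simp only [one_pow, mul_one] at h1
  have h2 := Finset.sum_erase_eq_sub (s := Q.powerset) (f := fun B => u ^ B.card) (a := ∅) (by simp)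
  rw [h2, h1]
  simp [add_comm]

/-- **Correction lemma.** -/
theorem corr (hB : Blk x Λ P) (c : ℤ)
    (h1 : (∑ a ∈ Fintype.piFinset P, 1 / (Nn a : ℝ)) / 4 ≤ (c : ℝ) / (∏ p ∈ Qs P, p : ℕ))
    (h2 : (c : ℝ) / (∏ p ∈ Qs P, p : ℕ) ≤ 3 * (∑ a ∈ Fintype.piFinset P, 1 / (Nn a : ℝ)) / 4) :
    ∃ S ⊆ Fintype.piFinset P, ∑ a ∈ S, 1 / (Nn a : ℝ) = (c : ℝ) / (∏ p ∈ Qs P, p : ℕ) := by
  classical
  have hx := hB.x_big
  have hΛ := hB.one
  have hbig := hB.big
  have hx0 : (0 : ℝ) < x := by linarith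
  have hxN : 0 < x := by exact_mod_cast hx0
  set E := Fintype.piFinset P with hE
  set Q := Qs P with hQ
  set R := ∏ p ∈ Q, p with hR
  set σ := ∑ a ∈ E, 1 / (Nn a : ℝ) with hσ
  have hRpos : 0 < R := prod_pos fun p hp => (hB.Q_prime hp).pos
  have hR0 : (0 : ℝ) < R := by exact_mod_cast hRpos
  have hNR : ∀ a ∈ E, Nn a ∣ R := by
    intro a ha
    have : ((∏ j ∈ (univ : Finset (Fin 8)), a j : ℕ) : ℤ) ∣ (R : ℤ) := by
      apply hB.prod_dvd ha
      intro j _
      have : a j ∈ Q := mem_biUnion.2 ⟨j, mem_univ j, Fintype.mem_piFinset.1 ha j⟩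
      exact_mod_cast dvd_prod_of_mem (fun p => p) this
    exact_mod_cast this
  have hcardE : ((E.card : ℕ) : ℝ) ≤ x ^ 8 := by
    have : E.card ≤ x ^ 8 := by
      rw [hE, Fintype.card_piFinset]
      have := Finset.prod_le_prod (s := (univ : Finset (Fin 8))) (f := fun j => (P j).card) (g := fun _ => x)
        (fun _ _ => Nat.zero_le _) (fun j _ => card_le_x hB j)
      simpa using this
    exact_mod_cast this
  have hσ1 : σ ≤ 1 := by
    have : ∀ a ∈ E, 1 / (Nn a : ℝ) ≤ 1 / (x : ℝ) ^ 8 := by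
      intro a ha
      exact one_div_le_one_div_of_le (by positivity) (hB.Nn_lo ha)
    calc σ ≤ ∑ a ∈ E, 1 / (x : ℝ) ^ 8 := sum_le_sum this
      _ = E.card * (1 / (x : ℝ) ^ 8) := by rw [sum_const, nsmul_eq_mul]
      _ ≤ x ^ 8 * (1 / (x : ℝ) ^ 8) := mul_le_mul_of_nonneg_right hcardE (by positivity)
      _ = 1 := by field_simp
  have hσ0 : 0 < σ := by
    apply sum_pos _ hB.nonempty
    intro a ha
    have := hB.Nn_pos ha
    positivity
  -- suppose there is no such set
  by_contra hno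
  push Not at hno
  have hS : ∀ S ⊆ E, ¬ (R : ℤ) ∣ (∑ e ∈ S, ((R / Nn e : ℕ) : ℤ)) - c := by
    intro S hSE hdvd
    apply hno S hSE
    have e1 : ((∑ e ∈ S, ((R / Nn e : ℕ) : ℤ) : ℤ) : ℝ) = R * ∑ a ∈ S, 1 / (Nn a : ℝ) := by
      rw [Int.cast_sum, mul_sum]
      apply sum_congr rfl
      intro a ha
      have := hB.Nn_pos (hSE ha)
      have h0 : (Nn a : ℝ) ≠ 0 := by positivity
      rw [Int.cast_natCast, Nat.cast_div (hNR a (hSE ha)) h0]
      field_simp
    have hSσ : ∑ a ∈ S, 1 / (Nn a : ℝ) ≤ σ :=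
      sum_le_sum_of_subset_of_nonneg hSE fun _ _ _ => by positivity
    have hS0 : 0 ≤ ∑ a ∈ S, 1 / (Nn a : ℝ) := sum_nonneg fun _ _ => by positivity
    have hc0 : (c : ℝ) / R ≤ 3 / 4 := by linarith
    have hc1 : 0 < (c : ℝ) / R := by linarith
    have habs : |(∑ e ∈ S, ((R / Nn e : ℕ) : ℤ)) - c| < R := by
      have h3 : |((((∑ e ∈ S, ((R / Nn e : ℕ) : ℤ)) - c : ℤ)) : ℝ)| < R := by
        rw [Int.cast_sub, e1]
        have e2 : (c : ℝ) = R * (c / R) := by field_simp
        rw [e2, ← mul_sub, abs_mul, abs_of_pos hR0]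
        have : |∑ a ∈ S, 1 / (Nn a : ℝ) - c / R| < 1 := by
          rw [abs_lt]
          constructor
          · linarith
          · have : σ / 4 ≤ c / R := h1
            linarith
        nlinarith
      exact_mod_cast h3
    have hz := Int.eq_zero_of_abs_lt_dvd hdvd habs
    have h4 : ((∑ e ∈ S, ((R / Nn e : ℕ) : ℤ) : ℤ) : ℝ) = c := by
      have : (∑ e ∈ S, ((R / Nn e : ℕ) : ℤ)) = c := by linarith
      exact_mod_cast this
    rw [e1] at h4
    rw [eq_div_iff hR0.ne']
    linarith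
  set ρ := (c : ℝ) / R / σ with hρ
  have hρ1 : 1 / 4 ≤ ρ := by
    rw [hρ, le_div_iff₀ hσ0]
    have : σ / 4 ≤ (c : ℝ) / R := h1
    linarith
  have hρ2 : ρ ≤ 3 / 4 := by
    rw [hρ, div_le_iff₀ hσ0]
    have : (c : ℝ) / R ≤ 3 * σ / 4 := h2
    linarith
  have hρc : (c : ℝ) / R = ρ * σ := by
    rw [hρ]; field_simp
  have hzero := fourier E Nn R hRpos hNR c ρ hS
  -- pointwise lower bound
  set g2 : ℕ → ℝ := fun h => ∑ r ∈ Finset.Icc (-((x : ℤ) ^ 5)) ((x : ℤ) ^ 5), ∑ B ∈ Q.powerset.erase ∅,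
    if (∏ p ∈ Q \ B, p : ℕ) ∣ ((h : ℤ) - r).natAbs then Real.exp (-((x : ℝ) ^ 4)) ^ B.card else 0 with hg2
  have hg2nn : ∀ h, 0 ≤ g2 h := by
    intro h
    apply sum_nonneg
    intro r _
    apply sum_nonneg
    intro B _
    split_ifs <;> positivity
  have point : ∀ h ∈ range R, (if h = 0 then (1 : ℝ) else 0) - g2 h - Real.exp (-(3 * x * Λ)) ≤
      (Fh E Nn R c ρ h).re := by
    intro h hh
    by_cases hT1 : ∃ r : ℤ, |r| ≤ (x : ℤ) ^ 5 ∧ (R : ℤ) ∣ h - r
    · obtain ⟨r, hr, hdr⟩ := hT1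
      have hrR : |(r : ℝ)| ≤ x ^ 5 := by exact_mod_cast hr
      have hre : 0 ≤ (Fh E Nn R c ρ h).re := by
        rw [Fh_periodic E Nn R hRpos hNR c ρ h r hdr]
        have hφ : ∀ a ∈ E, |2 * Real.pi * ((r : ℝ) / Nn a)| ≤ 7 / x ^ 3 := by
          intro a ha
          have hlo := hB.Nn_lo ha
          have hNp : (0 : ℝ) < Nn a := by exact_mod_cast hB.Nn_pos ha
          rw [abs_mul, abs_of_pos (by positivity : 0 < 2 * Real.pi), abs_div, abs_of_pos hNp]
          have hpi : 2 * Real.pi ≤ 7 := by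
            have := Real.pi_lt_d2
            linarith
          calc 2 * Real.pi * (|(r : ℝ)| / Nn a) ≤ 7 * (x ^ 5 / x ^ 8) := by
                apply mul_le_mul hpi _ (by positivity) (by norm_num)
                exact div_le_div₀ (by positivity) hrR (by positivity) hlo
            _ = 7 / x ^ 3 := by field_simp
        have hx3 : 7 / (x : ℝ) ^ 3 ≤ 1 := by
          rw [div_le_one (by positivity)]
          have : (x : ℝ) ≤ x ^ 3 := by
            have h5 : (1 : ℝ) ≤ x := by linarith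
            calc (x : ℝ) = x ^ 1 := by ring
              _ ≤ x ^ 3 := pow_le_pow_right₀ h5 (by norm_num)
          linarith
        apply Fh_re_nonneg E Nn R c ρ (by linarith) (by linarith) hρc
        · intro a ha
          exact (hφ a ha).trans hx3
        · calc (4 : ℝ) * ∑ a ∈ E, |2 * Real.pi * ((r : ℝ) / Nn a)| ^ 3 / 2
              ≤ (4 : ℝ) * ∑ a ∈ E, (7 / (x : ℝ) ^ 3) ^ 3 / 2 := by
                apply mul_le_mul_of_nonneg_left _ (by norm_num)
                apply sum_le_sum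
                intro a ha
                exact div_le_div_of_nonneg_right (pow_le_pow_left₀ (abs_nonneg _) (hφ a ha) 3) (by norm_num)
            _ = (E.card : ℝ) * (686 / (x : ℝ) ^ 9) := by
                have e5 : (7 / (x : ℝ) ^ 3) ^ 3 = 343 / (x : ℝ) ^ 9 := by
                  rw [div_pow, ← pow_mul]
                  norm_num
                rw [sum_const, nsmul_eq_mul, e5]
                ring
            _ ≤ (x : ℝ) ^ 8 * (686 / (x : ℝ) ^ 9) := mul_le_mul_of_nonneg_right hcardE (by positivity)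
            _ = 686 / (x : ℝ) := by field_simp
            _ ≤ 1 := by
                rw [div_le_one hx0]
                linarith
      have he := Real.exp_pos (-(3 * x * Λ))
      have hg := hg2nn h
      by_cases h0 : h = 0
      · subst h0
        have : Fh E Nn R c ρ ((0 : ℕ) : ℤ) = 1 := Fh_zero E Nn R c ρ
        rw [this]
        simp only [if_true, Complex.one_re]
        linarith
      · rw [if_neg h0]
        linarith
    · have h0 : h ≠ 0 := by
        rintro rfl
        apply hT1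
        exact ⟨0, by simp, by simp⟩
      rw [if_neg h0]
      have hnorm := norm_Fh_le E Nn R c ρ hρ1 hρ2 h
      have hre : -‖Fh E Nn R c ρ h‖ ≤ (Fh E Nn R c ρ h).re := by
        have := Complex.abs_re_le_norm (Fh E Nn R c ρ h)
        exact (abs_le.1 this).1
      have he := Real.exp_pos (-(3 * x * Λ))
      have hg := hg2nn h
      by_cases hT3 : ∑ a ∈ E, nd (((h : ℤ) : ℝ) / Nn a) ^ 2 ≤ 2 * x * Λ
      · obtain ⟨r, hr, hrj⟩ := star hB h hT3
        have hsp := spread hB h r hr hrj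
        set B := (Qs P).filter (fun p : ℕ => ¬ (p : ℤ) ∣ h - r) with hBdef
        have hBne : B ≠ ∅ := by
          intro hemp
          apply hT1
          refine ⟨r, hr, ?_⟩
          have hall : ∀ p ∈ Q, (p : ℤ) ∣ h - r := by
            intro p hp
            by_contra hnd
            have : p ∈ B := mem_filter.2 ⟨hp, hnd⟩
            rw [hemp] at this
            simp at this
          rw [Int.natCast_dvd]
          exact primes_dvd Q (fun p hp => hB.Q_prime hp) _ hall
        have hterm : Real.exp (-((x : ℝ) ^ 4)) ^ B.card ≤ g2 h := by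
          rw [hg2]
          have hrm : r ∈ Finset.Icc (-((x : ℤ) ^ 5)) ((x : ℤ) ^ 5) := by
            rw [mem_Icc]
            exact abs_le.1 hr
          have hBm : B ∈ Q.powerset.erase ∅ := by
            rw [mem_erase, mem_powerset]
            exact ⟨hBne, filter_subset _ _⟩
          have hcond : (∏ p ∈ Q \ B, p : ℕ) ∣ ((h : ℤ) - r).natAbs := by
            apply primes_dvd (Q \ B) (fun p hp => hB.Q_prime (mem_sdiff.1 hp).1)
            intro p hp
            rw [mem_sdiff] at hp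
            by_contra hnd
            exact hp.2 (mem_filter.2 ⟨hp.1, hnd⟩)
          refine le_trans ?_ (single_le_sum (f := fun r => ∑ B ∈ Q.powerset.erase ∅,
            if (∏ p ∈ Q \ B, p : ℕ) ∣ ((h : ℤ) - r).natAbs then Real.exp (-((x : ℝ) ^ 4)) ^ B.card else 0)
            (fun r _ => sum_nonneg fun B _ => by split_ifs <;> positivity) hrm)
          refine le_trans ?_ (single_le_sum (f := fun B =>
            if (∏ p ∈ Q \ B, p : ℕ) ∣ ((h : ℤ) - r).natAbs then Real.exp (-((x : ℝ) ^ 4)) ^ B.card else 0)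
            (fun B _ => by split_ifs <;> positivity) hBm)
          rw [if_pos hcond]
        have hle : Real.exp (-(3 / 2) * ∑ e ∈ E, nd (((h : ℤ) : ℝ) / Nn e) ^ 2) ≤
            Real.exp (-((x : ℝ) ^ 4)) ^ B.card := by
          rw [← Real.exp_nat_mul]
          apply Real.exp_le_exp.2
          linarith
        linarith
      · rw [not_le] at hT3
        have hle : Real.exp (-(3 / 2) * ∑ e ∈ E, nd (((h : ℤ) : ℝ) / Nn e) ^ 2) ≤
            Real.exp (-(3 * x * Λ)) := by
          apply Real.exp_le_exp.2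
          linarith
        linarith
  -- sum over `h`
  have hsum : (1 : ℝ) - ∑ h ∈ range R, g2 h - R * Real.exp (-(3 * x * Λ)) ≤ 0 := by
    have h3 := Finset.sum_le_sum point
    have h4 : ∑ h ∈ range R, (Fh E Nn R c ρ h).re = 0 := by
      rw [← Complex.re_sum, hzero, Complex.zero_re]
    rw [h4, sum_sub_distrib, sum_sub_distrib, sum_const, nsmul_eq_mul, card_range] at h3
    have h5 : ∑ h ∈ range R, (if h = 0 then (1 : ℝ) else 0) = 1 := by
      rw [sum_ite_eq' (range R) 0 (fun _ => (1 : ℝ)), if_pos (mem_range.2 hRpos)]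
    rw [h5] at h3
    exact h3
  -- the third part
  have hT3b : R * Real.exp (-(3 * x * Λ)) ≤ 1 / 4 := by
    have hRle : (R : ℝ) ≤ Real.exp (x * Λ) := by
      have h3 : (R : ℝ) ≤ (2 * x : ℝ) ^ x := by
        have h4 : R ≤ (2 * x) ^ Q.card := by
          rw [hR]
          exact Finset.prod_le_pow_card Q (fun p => p) (2 * x) fun p hp => (hB.Q_hi hp).le
        have h5 : (2 * x) ^ Q.card ≤ (2 * x) ^ x := Nat.pow_le_pow_right (by omega) hB.Q_card
        exact_mod_cast h4.trans h5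
      refine h3.trans ?_
      have h6 : (0 : ℝ) < 2 * x := by positivity
      have h7 : (2 * x : ℝ) ≤ Real.exp Λ := by
        rw [← Real.log_le_iff_le_exp h6]
        exact hB.log
      rw [Real.exp_nat_mul]
      exact pow_le_pow_left₀ h6.le h7 x
    have h8 : R * Real.exp (-(3 * x * Λ)) ≤ Real.exp (x * Λ) * Real.exp (-(3 * x * Λ)) :=
      mul_le_mul_of_nonneg_right hRle (Real.exp_pos _).le
    rw [← Real.exp_add] at h8
    refine h8.trans ?_
    have h9 : x * Λ + -(3 * x * Λ) = -(2 * (x * Λ)) := by ring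
    rw [h9, Real.exp_neg, inv_le_comm₀ (Real.exp_pos _) (by norm_num)]
    have h10 := Real.add_one_le_exp (2 * (x * Λ))
    have : (1 : ℝ) ≤ x * Λ := by nlinarith
    nlinarith
  -- the second part
  have hT2b : ∑ h ∈ range R, g2 h ≤ 1 / 4 := by
    have hexp : Real.exp (-((x : ℝ) ^ 4)) ≤ 2 / x ^ 8 := by
      rw [Real.exp_neg, inv_le_comm₀ (Real.exp_pos _) (by positivity)]
      have h3 := Real.quadratic_le_exp_of_nonneg (x := (x : ℝ) ^ 4) (by positivity)
      rw [inv_div]
      have h4 : (0 : ℝ) ≤ x ^ 4 := by positivity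
      have h5 : (x : ℝ) ^ 8 = (x ^ 4) ^ 2 := by ring
      rw [h5]
      linarith
    have hsw : ∑ h ∈ range R, g2 h = ∑ r ∈ Finset.Icc (-((x : ℤ) ^ 5)) ((x : ℤ) ^ 5), ∑ B ∈ Q.powerset.erase ∅,
        ∑ h ∈ range R, if (∏ p ∈ Q \ B, p : ℕ) ∣ ((h : ℤ) - r).natAbs then Real.exp (-((x : ℝ) ^ 4)) ^ B.card else 0 := by
      rw [hg2, sum_comm]
      apply sum_congr rfl
      intro r _
      rw [sum_comm]
    rw [hsw]
    have hinner : ∀ r : ℤ, ∀ B ∈ Q.powerset.erase ∅,
        (∑ h ∈ range R, if (∏ p ∈ Q \ B, p : ℕ) ∣ ((h : ℤ) - r).natAbs then Real.exp (-((x : ℝ) ^ 4)) ^ B.card else 0) ≤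
        (2 * x * Real.exp (-((x : ℝ) ^ 4))) ^ B.card := by
      intro r B hBm
      have hBQ : B ⊆ Q := mem_powerset.1 (mem_erase.1 hBm).2
      rw [← sum_filter, sum_const, nsmul_eq_mul, mul_pow]
      apply mul_le_mul_of_nonneg_right _ (by positivity)
      have hRq : R = (∏ p ∈ Q \ B, p) * ∏ p ∈ B, p := by
        rw [hR, Finset.prod_sdiff hBQ]
      have h3 := card_class (∏ p ∈ Q \ B, p) (∏ p ∈ B, p) r
      rw [← hRq] at h3
      have h4 : ∏ p ∈ B, p ≤ (2 * x) ^ B.card :=
        Finset.prod_le_pow_card B (fun p => p) (2 * x) fun p hp => (hB.Q_hi (hBQ hp)).le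
      have h5 : ((range R).filter (fun h : ℕ => (∏ p ∈ Q \ B, p : ℕ) ∣ ((h : ℤ) - r).natAbs)).card ≤ (2 * x) ^ B.card := by
        refine le_trans (le_of_eq ?_) (h3.trans h4)
        congr 1
        apply filter_congr
        intro h _
        rw [← Int.natCast_dvd]
      exact_mod_cast h5
    calc ∑ r ∈ Finset.Icc (-((x : ℤ) ^ 5)) ((x : ℤ) ^ 5), ∑ B ∈ Q.powerset.erase ∅,
        ∑ h ∈ range R, (if (∏ p ∈ Q \ B, p : ℕ) ∣ ((h : ℤ) - r).natAbs then Real.exp (-((x : ℝ) ^ 4)) ^ B.card else 0)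
        ≤ ∑ r ∈ Finset.Icc (-((x : ℤ) ^ 5)) ((x : ℤ) ^ 5), ∑ B ∈ Q.powerset.erase ∅,
          (2 * x * Real.exp (-((x : ℝ) ^ 4))) ^ B.card :=
          sum_le_sum fun r _ => sum_le_sum fun B hBm => hinner r B hBm
      _ = ((Finset.Icc (-((x : ℤ) ^ 5)) ((x : ℤ) ^ 5)).card : ℝ) *
          ((1 + 2 * x * Real.exp (-((x : ℝ) ^ 4))) ^ Q.card - 1) := by
          rw [sum_const, nsmul_eq_mul, sum_powerset_exp]
      _ ≤ (3 * x ^ 5) * (8 / x ^ 6) := by
          have hu0 : 0 ≤ 2 * x * Real.exp (-((x : ℝ) ^ 4)) := by positivity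
          have hQc : (Q.card : ℝ) ≤ x := by exact_mod_cast hB.Q_card
          have hu : Q.card * (2 * x * Real.exp (-((x : ℝ) ^ 4))) ≤ 4 / x ^ 6 := by
            calc Q.card * (2 * x * Real.exp (-((x : ℝ) ^ 4))) ≤ x * (2 * x * (2 / x ^ 8)) := by
                  apply mul_le_mul hQc _ hu0 hx0.le
                  apply mul_le_mul_of_nonneg_left hexp (by positivity)
              _ = 4 / x ^ 6 := by field_simp; norm_num
          have h46 : 4 / (x : ℝ) ^ 6 ≤ 1 := by
            rw [div_le_one (by positivity)]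
            have : (x : ℝ) ≤ x ^ 6 := by
              have h5 : (1 : ℝ) ≤ x := by linarith
              calc (x : ℝ) = x ^ 1 := by ring
                _ ≤ x ^ 6 := pow_le_pow_right₀ h5 (by norm_num)
            linarith
          have h3 := exp_small Q.card _ hu0 (hu.trans h46)
          have hI : ((Finset.Icc (-((x : ℤ) ^ 5)) ((x : ℤ) ^ 5)).card : ℝ) ≤ 3 * x ^ 5 := by
            have h5 : (Finset.Icc (-((x : ℤ) ^ 5)) ((x : ℤ) ^ 5)).card = 2 * x ^ 5 + 1 := by
              rw [Int.card_Icc]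
              have : (x : ℤ) ^ 5 + 1 - -((x : ℤ) ^ 5) = ((2 * x ^ 5 + 1 : ℕ) : ℤ) := by push_cast; ring
              rw [this, Int.toNat_natCast]
            rw [h5]
            push_cast
            have : (1 : ℝ) ≤ x ^ 5 := one_le_pow₀ (by linarith)
            linarith
          apply mul_le_mul hI _ _ (by positivity)
          · refine h3.trans ?_
            calc 2 * (Q.card * (2 * x * Real.exp (-((x : ℝ) ^ 4)))) ≤ 2 * (4 / x ^ 6) := by linarith
              _ = 8 / x ^ 6 := by ring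
          · have : 1 ≤ (1 + 2 * x * Real.exp (-((x : ℝ) ^ 4))) ^ Q.card := one_le_pow₀ (by linarith)
            linarith
      _ = 24 / x := by field_simp; norm_num
      _ ≤ 1 / 4 := by
          rw [div_le_iff₀ hx0]
          linarith
  linarith

end Pool.Agent.Q41.W
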