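import Pool.Agent.Q41.W.Main

set_option autoImplicit false

namespace Pool.Agent.Q41.W

open Finset

lemma geom_bound (p k : ℕ) (hp : 2 ≤ p) : ((∑ j ∈ range (k + 1), p ^ j : ℕ) : ℝ) ≤ (p : ℝ) ^ k * (1 + 2 / p) := by
  have hp' : (2 : ℝ) ≤ p := by exact_mod_cast hp
  have h1 : (∑ j ∈ range (k + 1), (p : ℝ) ^ j) * (p - 1) = p ^ (k + 1) - 1 := geom_sum_mul _ _
  push_cast
  have h2 : (∑ j ∈ range (k + 1), (p : ℝ) ^ j) * (p - 1) ≤ ((p : ℝ) ^ k * (1 + 2 / p)) * (p - 1) := by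
    rw [h1]
    have h3 : ((p : ℝ) ^ k * (1 + 2 / p)) * (p - 1) = p ^ (k + 1) + p ^ k * (1 - 2 / p) := by
      field_simp
      ring
    rw [h3]
    have h4 : 0 ≤ 1 - 2 / (p : ℝ) := by
      rw [sub_nonneg, div_le_one (by linarith)]
      exact hp'
    have h5 : 0 ≤ (p : ℝ) ^ k * (1 - 2 / p) := by positivity
    linarith
  exact le_of_mul_le_mul_right h2 (by linarith)

lemma sigma_bound (n : ℕ) (hn : n ≠ 0) :
    ((∑ d ∈ n.divisors, d : ℕ) : ℝ) / n ≤ Real.exp (2 * ∑ p ∈ n.primeFactors, 1 / (p : ℝ)) := by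
  have hn0 : (0 : ℝ) < n := by positivity
  rw [div_le_iff₀ hn0, Nat.sum_divisors hn]
  have e1 : (n : ℝ) = ∏ p ∈ n.primeFactors, (p : ℝ) ^ n.factorization p := by
    have := Nat.prod_factorization_pow_eq_self hn
    conv_lhs => rw [← this]
    unfold Finsupp.prod
    push_cast
    rfl
  rw [mul_sum, Real.exp_sum]
  conv_rhs => rw [e1]
  rw [← prod_mul_distrib]
  rw [Nat.cast_prod]
  apply prod_le_prod
  · intro p _; positivity
  · intro p hp
    have hp2 := (Nat.prime_of_mem_primeFactors hp).two_le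
    refine (geom_bound p _ hp2).trans ?_
    rw [mul_comm]
    apply mul_le_mul_of_nonneg_right _ (by positivity)
    have := Real.add_one_le_exp (2 * (1 / (p : ℝ)))
    refine le_trans (le_of_eq ?_) this
    ring

lemma sum_inv_sq (L : ℕ) : ∑ i ∈ range L, 1 / (i : ℝ) ^ 2 ≤ 2 := by
  have key : ∀ L : ℕ, ∑ i ∈ range (L + 2), 1 / (i : ℝ) ^ 2 ≤ 2 - 1 / ((L : ℝ) + 1) := by
    intro L
    induction L with
    | zero =>
      rw [sum_range_succ, sum_range_succ]
      norm_num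
    | succ L ih =>
      rw [sum_range_succ]
      have h1 : 1 / (((L + 2 : ℕ) : ℝ)) ^ 2 ≤ 1 / ((L : ℝ) + 1) - 1 / ((L : ℝ) + 2) := by
        have hL : (0 : ℝ) ≤ L := Nat.cast_nonneg L
        push_cast
        rw [div_sub_div _ _ (by positivity) (by positivity), div_le_div_iff₀ (by positivity) (by positivity)]
        nlinarith
      push_cast at h1 ih ⊢
      have e : (L : ℝ) + 1 + 1 = L + 2 := by ring
      rw [e]
      linarith
  have h2 := key L
  have h3 : ∑ i ∈ range L, 1 / (i : ℝ) ^ 2 ≤ ∑ i ∈ range (L + 2), 1 / (i : ℝ) ^ 2 :=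
    sum_le_sum_of_subset_of_nonneg (range_subset_range.2 (by omega)) fun _ _ _ => by positivity
  have h4 : 0 ≤ 1 / ((L : ℝ) + 1) := by positivity
  linarith

/-- the prime factors of `n` in the `i`-th dyadic block -/
def Bk (n i : ℕ) : Finset ℕ := n.primeFactors.filter (fun p => 2 ^ i ≤ p ∧ p < 2 ^ (i + 1))

open Classical in
/-- the dense dyadic blocks -/
noncomputable def Qb (i0 n i : ℕ) : Finset ℕ := if i0 ≤ i ∧ 2 ^ i ≤ i ^ 2 * (Bk n i).card then Bk n i else ∅

lemma Qb_sub (i0 n i : ℕ) : Qb i0 n i ⊆ Bk n i := by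
  unfold Qb
  split_ifs
  · exact subset_refl _
  · exact empty_subset _

lemma lad (i0 n : ℕ) (h : ∀ i, i0 ≤ i → Cond i) : Lad i0 (Qb i0 n) := by
  refine ⟨h, ?_, ?_, ?_, ?_, ?_⟩
  · intro i p hp
    exact Nat.prime_of_mem_primeFactors (mem_filter.1 (Qb_sub _ _ _ hp)).1
  · intro i p hp
    exact (mem_filter.1 (Qb_sub _ _ _ hp)).2.1
  · intro i p hp
    exact (mem_filter.1 (Qb_sub _ _ _ hp)).2.2
  · intro i hi
    unfold Qb
    rw [if_neg]
    rintro ⟨h1, _⟩
    omega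
  · intro i hne
    unfold Qb at hne ⊢
    split_ifs at hne ⊢ with h1
    · exact h1.2
    · simp at hne

lemma Bk_sum_le (n i : ℕ) : ∑ p ∈ Bk n i, 1 / (p : ℝ) ≤ (Bk n i).card / 2 ^ i := by
  have h1 : ∀ p ∈ Bk n i, 1 / (p : ℝ) ≤ 1 / (2 : ℝ) ^ i := fun p hp =>
    one_div_le_one_div_of_le (by positivity) (by exact_mod_cast (mem_filter.1 hp).2.1)
  calc ∑ p ∈ Bk n i, 1 / (p : ℝ) ≤ ∑ p ∈ Bk n i, 1 / (2 : ℝ) ^ i := sum_le_sum h1
    _ = (Bk n i).card / 2 ^ i := by rw [sum_const, nsmul_eq_mul]; ring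

lemma Bk_card_le (n i : ℕ) : (Bk n i).card ≤ 2 ^ i := by
  have : Bk n i ⊆ Finset.Ico (2 ^ i) (2 ^ (i + 1)) := fun p hp => Finset.mem_Ico.2 (mem_filter.1 hp).2
  have := Finset.card_le_card this
  rw [Nat.card_Ico, pow_succ] at this
  omega

lemma recip_le (i0 n : ℕ) (hi0 : 1 ≤ i0) (hn : n ≠ 0) :
    ∑ p ∈ n.primeFactors, 1 / (p : ℝ) ≤ Sb (Qb i0 n) n + i0 + 2 := by
  classical
  have h1 : n.primeFactors ⊆ (range n).biUnion (Bk n) := by
    intro p hp
    have hpp := Nat.prime_of_mem_primeFactors hp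
    have hpn := Nat.le_of_mem_primeFactors hp
    rw [mem_biUnion]
    refine ⟨Nat.log 2 p, ?_, ?_⟩
    · rw [mem_range]
      exact (Nat.log_lt_self 2 hpp.ne_zero).trans_le hpn
    · unfold Bk
      rw [mem_filter]
      exact ⟨hp, Nat.pow_log_le_self 2 hpp.ne_zero, Nat.lt_pow_succ_log_self (by norm_num) p⟩
  have h2 : ∑ p ∈ n.primeFactors, 1 / (p : ℝ) ≤ ∑ i ∈ range n, ∑ p ∈ Bk n i, 1 / (p : ℝ) := by
    refine (sum_le_sum_of_subset_of_nonneg h1 fun _ _ _ => by positivity).trans ?_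
    rw [sum_biUnion]
    intro j _ l _ hjl
    change Disjoint (Bk n j) (Bk n l)
    rw [Finset.disjoint_left]
    intro p hp hp'
    unfold Bk at hp hp'
    rw [mem_filter] at hp hp'
    have c1 : 2 ^ j < 2 ^ (l + 1) := by omega
    have c2 : 2 ^ l < 2 ^ (j + 1) := by omega
    have d1 := (Nat.pow_lt_pow_iff_right (by norm_num)).1 c1
    have d2 := (Nat.pow_lt_pow_iff_right (by norm_num)).1 c2
    omega
  have h3 : ∀ i ∈ range n, ∑ p ∈ Bk n i, 1 / (p : ℝ) ≤
      eb (Qb i0 n) i + (if i < i0 then 1 else 0) + 1 / (i : ℝ) ^ 2 := by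
    intro i _
    have hle := Bk_sum_le n i
    have heb := eb_nonneg (Q := Qb i0 n) i
    have h0 : 0 ≤ 1 / (i : ℝ) ^ 2 := by positivity
    by_cases hi : i < i0
    · rw [if_pos hi]
      have h4 : ((Bk n i).card : ℝ) / 2 ^ i ≤ 1 := by
        rw [div_le_one (by positivity)]
        exact_mod_cast Bk_card_le n i
      linarith
    · rw [if_neg hi]
      rw [not_lt] at hi
      by_cases hd : 2 ^ i ≤ i ^ 2 * (Bk n i).card
      · have : eb (Qb i0 n) i = ∑ p ∈ Bk n i, 1 / (p : ℝ) := by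
          unfold eb Qb
          rw [if_pos ⟨hi, hd⟩]
        rw [this]
        linarith
      · rw [not_le] at hd
        have hi1 : (1 : ℝ) ≤ i := by exact_mod_cast hi0.trans hi
        have h4 : ((Bk n i).card : ℝ) / 2 ^ i ≤ 1 / (i : ℝ) ^ 2 := by
          rw [div_le_div_iff₀ (by positivity) (by positivity)]
          have : ((i ^ 2 * (Bk n i).card : ℕ) : ℝ) < ((2 ^ i : ℕ) : ℝ) := by exact_mod_cast hd
          push_cast at this
          linarith
        linarith
  have h5 := sum_le_sum h3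
  rw [sum_add_distrib, sum_add_distrib] at h5
  have h6 : ∑ i ∈ range n, (if i < i0 then (1 : ℝ) else 0) ≤ i0 := by
    rw [← sum_filter, sum_const, nsmul_eq_mul, mul_one]
    have : ((range n).filter (fun i => i < i0)).card ≤ (range i0).card := by
      apply card_le_card
      intro i hi
      rw [mem_filter] at hi
      exact mem_range.2 hi.2
    rw [card_range] at this
    exact_mod_cast this
  have h7 := sum_inv_sq n
  have h8 : Sb (Qb i0 n) n = ∑ i ∈ range n, eb (Qb i0 n) i := rfl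
  linarith

lemma Nb_dvd (i0 n i : ℕ) (h : ∀ i, i0 ≤ i → Cond i) (hn : n ≠ 0) : Nb (Qb i0 n) i ∣ n := by
  classical
  have e1 : Nb (Qb i0 n) i = ∏ p ∈ (range i).biUnion (Qb i0 n), p := by
    unfold Nb Rb
    rw [prod_biUnion]
    intro j _ l _ hjl
    change Disjoint (Qb i0 n j) (Qb i0 n l)
    rw [Finset.disjoint_left]
    intro p hp hp'
    have hL := lad i0 n h
    have a1 := hL.lo j p hp
    have a2 := hL.hi j p hp
    have b1 := hL.lo l p hp'
    have b2 := hL.hi l p hp'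
    have c1 : 2 ^ j < 2 ^ (l + 1) := by omega
    have c2 : 2 ^ l < 2 ^ (j + 1) := by omega
    have d1 := (Nat.pow_lt_pow_iff_right (by norm_num)).1 c1
    have d2 := (Nat.pow_lt_pow_iff_right (by norm_num)).1 c2
    omega
  rw [e1]
  apply Finset.prod_primes_dvd
  · intro p hp
    rw [mem_biUnion] at hp
    obtain ⟨j, _, hpj⟩ := hp
    exact ((lad i0 n h).prime j p hpj).prime
  · intro p hp
    rw [mem_biUnion] at hp
    obtain ⟨j, _, hpj⟩ := hp
    exact Nat.dvd_of_mem_primeFactors (mem_filter.1 (Qb_sub _ _ _ hpj)).1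

/-- **Main theorem**: a positive integer with large `σ(n) / n` is a sum of distinct proper divisors. -/
theorem main : ∃ C : ℝ, ∀ n : ℕ, 0 < n → C < ((∑ d ∈ n.divisors, d : ℕ) : ℝ) / n →
    ∃ s ⊆ n.properDivisors, ∑ i ∈ s, i = n := by
  classical
  obtain ⟨i0', hi0'⟩ := eventually_cond
  set i0 := max i0' 1 with hi0
  have hcond : ∀ i, i0 ≤ i → Cond i := fun i hi => hi0' i (le_trans (le_max_left _ _) hi)
  refine ⟨Real.exp (2 * (i0 + 5)), fun n hn hC => ?_⟩
  have h1 := hC.trans_le (sigma_bound n hn.ne')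
  rw [Real.exp_lt_exp] at h1
  have h2 := recip_le i0 n (le_max_right _ _) hn.ne'
  obtain ⟨i, D, hD, hsum⟩ := ladder (lad i0 n hcond) ⟨n, by linarith⟩
  have hdn : ∀ d ∈ D, d ∣ n := fun d hd => (hD d hd).1.trans (Nb_dvd i0 n i hcond hn.ne')
  refine ⟨D.image (fun d => n / d), ?_, ?_⟩
  · intro a ha
    rw [mem_image] at ha
    obtain ⟨d, hd, rfl⟩ := ha
    rw [Nat.mem_properDivisors]
    exact ⟨Nat.div_dvd_of_dvd (hdn d hd), Nat.div_lt_self hn (hD d hd).2⟩
  · rw [sum_image]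
    · have hn0 : (n : ℝ) ≠ 0 := by positivity
      have h3 : ((∑ d ∈ D, n / d : ℕ) : ℝ) = n := by
        push_cast
        have h4 : ∀ d ∈ D, ((n / d : ℕ) : ℝ) = n * (1 / (d : ℝ)) := by
          intro d hd
          have : (d : ℝ) ≠ 0 := by
            have := (hD d hd).2
            positivity
          rw [Nat.cast_div (hdn d hd) this]
          ring
        rw [sum_congr rfl h4, ← mul_sum, hsum, mul_one]
      exact_mod_cast h3
    · intro d1 hd1 d2 hd2 h
      have h' : n / d1 = n / d2 := h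
      have e1 := Nat.div_mul_cancel (hdn d1 hd1)
      have e2 := Nat.div_mul_cancel (hdn d2 hd2)
      rw [h'] at e1
      have hpos : 0 < n / d2 := Nat.div_pos (Nat.le_of_dvd hn (hdn d2 hd2)) (by have := (hD d2 hd2).2; omega)
      exact Nat.eq_of_mul_eq_mul_left hpos (e1.trans e2.symm)

end Pool.Agent.Q41.W
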