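import Pool.Agent.Q41.W.Basic

set_option autoImplicit false

namespace Pool.Agent.Q41.W

open Finset Complex

/-- the Fourier coefficient of the law of a random subset sum of the `1 / N e`, recentred at `c / R` -/
noncomputable def Fh {ι : Type*} (E : Finset ι) (N : ι → ℕ) (R : ℕ) (c : ℤ) (ρ : ℝ) (h : ℤ) : ℂ :=
  ex (-(h * (c / R))) * ∏ e ∈ E, (((1 - ρ : ℝ) : ℂ) + (ρ : ℂ) * ex (h / N e))

lemma sum_ex_eq_zero (R : ℕ) (hR : 0 < R) (m : ℤ) (hm : ¬ (R : ℤ) ∣ m) :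
    ∑ h ∈ range R, ex ((h : ℝ) * (m / R)) = 0 := by
  have hR' : (R : ℝ) ≠ 0 := by positivity
  have hζ : ex ((m : ℝ) / R) ≠ 1 := by
    intro h
    rw [ex_eq_one_iff] at h
    obtain ⟨n, hn⟩ := h
    apply hm
    refine ⟨n, ?_⟩
    rw [div_eq_iff hR'] at hn
    have : (m : ℝ) = ((R * n : ℤ) : ℝ) := by push_cast; linarith
    exact_mod_cast this
  have hζR : ex ((m : ℝ) / R) ^ R = 1 := by
    rw [← ex_nsmul, mul_div_cancel₀ _ hR', ex_int]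
  have e1 : ∑ h ∈ range R, ex ((h : ℝ) * (m / R)) = ∑ h ∈ range R, ex ((m : ℝ) / R) ^ h :=
    sum_congr rfl fun h _ => ex_nsmul _ _
  rw [e1]
  have := geom_sum_mul (ex ((m : ℝ) / R)) R
  rw [hζR, sub_self] at this
  exact (mul_eq_zero.1 this).resolve_right (sub_ne_zero.2 hζ)

lemma fourier {ι : Type*} (E : Finset ι) (N : ι → ℕ) (R : ℕ) (hR : 0 < R)
    (hN : ∀ e ∈ E, N e ∣ R) (c : ℤ) (ρ : ℝ)
    (hS : ∀ S ⊆ E, ¬ (R : ℤ) ∣ (∑ e ∈ S, ((R / N e : ℕ) : ℤ)) - c) :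
    ∑ h ∈ range R, Fh E N R c ρ h = 0 := by
  classical
  have hR' : (R : ℝ) ≠ 0 := by positivity
  have key : ∀ h : ℕ, Fh E N R c ρ h = ∑ S ∈ E.powerset,
      ((ρ : ℂ) ^ #S * ((1 - ρ : ℝ) : ℂ) ^ #(E \ S)) *
        ex ((h : ℝ) * (((∑ e ∈ S, ((R / N e : ℕ) : ℤ)) - c : ℤ) / R)) := by
    intro h
    unfold Fh
    have e0 : ∀ e ∈ E, ((1 - ρ : ℝ) : ℂ) + (ρ : ℂ) * ex (((h : ℤ) : ℝ) / N e) =
        (ρ : ℂ) * ex ((h : ℝ) / N e) + ((1 - ρ : ℝ) : ℂ) := by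
      intro e _
      rw [add_comm, Int.cast_natCast]
    rw [prod_congr rfl e0, prod_add, mul_sum]
    apply sum_congr rfl
    intro S hSE
    have hSE := mem_powerset.1 hSE
    rw [prod_mul_distrib, prod_const, prod_const, ← ex_sum]
    have e1 : (h : ℝ) * (((∑ e ∈ S, ((R / N e : ℕ) : ℤ)) - c : ℤ) / R) =
        -(((h : ℤ) : ℝ) * (c / R)) + ∑ e ∈ S, (h : ℝ) / N e := by
      have e2 : ∀ e ∈ S, (h : ℝ) / N e = (h : ℝ) * (((R / N e : ℕ) : ℝ) / R) := by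
        intro e he
        have hd := hN e (hSE he)
        have hNe : (N e : ℝ) ≠ 0 := by
          have : N e ≠ 0 := by
            rintro h0
            rw [h0, zero_dvd_iff] at hd
            omega
          exact_mod_cast this
        rw [Nat.cast_div hd hNe]
        field_simp
      rw [sum_congr rfl e2, ← mul_sum, ← sum_div, Int.cast_sub, Int.cast_sum]
      simp only [Int.cast_natCast]
      ring
    rw [e1, ex_add]
    ring
  have : ∑ h ∈ range R, Fh E N R c ρ h = ∑ S ∈ E.powerset,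
      ((ρ : ℂ) ^ #S * ((1 - ρ : ℝ) : ℂ) ^ #(E \ S)) * ∑ h ∈ range R,
        ex ((h : ℝ) * (((∑ e ∈ S, ((R / N e : ℕ) : ℤ)) - c : ℤ) / R)) := by
    simp_rw [mul_sum]
    rw [sum_comm]
    exact sum_congr rfl fun h _ => key h
  rw [this]
  apply sum_eq_zero
  intro S hSE
  rw [sum_ex_eq_zero R hR _ (hS S (mem_powerset.1 hSE)), mul_zero]

lemma Fh_periodic {ι : Type*} (E : Finset ι) (N : ι → ℕ) (R : ℕ) (hR : 0 < R)
    (hN : ∀ e ∈ E, N e ∣ R) (c : ℤ) (ρ : ℝ) (h r : ℤ) (hr : (R : ℤ) ∣ h - r) :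
    Fh E N R c ρ h = Fh E N R c ρ r := by
  obtain ⟨k, hk⟩ := hr
  have hh : h = r + R * k := by linarith
  subst hh
  have hR' : (R : ℝ) ≠ 0 := by positivity
  unfold Fh
  congr 1
  · have : -(((r + R * k : ℤ) : ℝ) * (c / R)) = -((r : ℝ) * (c / R)) + ((-(k * c) : ℤ) : ℝ) := by
      push_cast
      field_simp
      ring
    rw [this, ex_add, ex_int, mul_one]
  · apply prod_congr rfl
    intro e he
    have hd := hN e he
    have hNe : (N e : ℝ) ≠ 0 := by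
      have : N e ≠ 0 := by
        rintro h0
        rw [h0, zero_dvd_iff] at hd
        omega
      exact_mod_cast this
    obtain ⟨q, hq⟩ := hd
    have : (((r + R * k : ℤ) : ℝ) / N e) = (r : ℝ) / N e + ((q * k : ℤ) : ℝ) := by
      rw [hq]
      push_cast
      field_simp
    rw [this, ex_add, ex_int, mul_one]

lemma norm_Fh_le {ι : Type*} (E : Finset ι) (N : ι → ℕ) (R : ℕ) (c : ℤ) (ρ : ℝ) (h1 : 1 / 4 ≤ ρ)
    (h2 : ρ ≤ 3 / 4) (h : ℤ) :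
    ‖Fh E N R c ρ h‖ ≤ Real.exp (-(3 / 2) * ∑ e ∈ E, nd (h / N e) ^ 2) := by
  unfold Fh
  rw [norm_mul, norm_ex, one_mul, norm_prod, mul_sum, Real.exp_sum]
  exact prod_le_prod (fun _ _ => norm_nonneg _) fun e _ => norm_factor ρ _ h1 h2

/-- the terms with small `h` have nonnegative real part -/
lemma Fh_re_nonneg {ι : Type*} (E : Finset ι) (N : ι → ℕ) (R : ℕ) (c : ℤ) (ρ : ℝ) (h1 : 0 ≤ ρ)
    (h2 : ρ ≤ 1) (hc : (c : ℝ) / R = ρ * ∑ e ∈ E, 1 / (N e : ℝ)) (h : ℤ)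
    (h3 : ∀ e ∈ E, |2 * Real.pi * (h / N e)| ≤ 1)
    (h4 : 4 * ∑ e ∈ E, |2 * Real.pi * (h / N e)| ^ 3 / 2 ≤ 1) :
    0 ≤ (Fh E N R c ρ h).re := by
  have e1 : Fh E N R c ρ h = ∏ e ∈ E, (ex (-(ρ * (h / N e))) * (((1 - ρ : ℝ) : ℂ) + (ρ : ℂ) * ex (h / N e))) := by
    unfold Fh
    rw [prod_mul_distrib, ← ex_sum]
    congr 2
    rw [hc, mul_sum, mul_sum, ← sum_neg_distrib]
    apply sum_congr rfl
    intro e _
    ring
  rw [e1]
  refine (prod_arg E _ (fun e => |2 * Real.pi * (h / N e)| ^ 3 / 2) (fun e _ => by positivity) (fun e he => ?_)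
    (fun e he => (factor_arg ρ _ h1 h2 (h3 e he)).2) h4).1
  have := (factor_arg ρ _ h1 h2 (h3 e he)).1
  linarith

lemma Fh_zero {ι : Type*} (E : Finset ι) (N : ι → ℕ) (R : ℕ) (c : ℤ) (ρ : ℝ) : Fh E N R c ρ 0 = 1 := by
  unfold Fh
  have : ∀ e ∈ E, (((1 - ρ : ℝ) : ℂ) + (ρ : ℂ) * ex (((0 : ℤ) : ℝ) / N e)) = 1 := by
    intro e _
    simp [ex_zero]
  rw [prod_congr rfl this]
  simp [ex_zero]

end Pool.Agent.Q41.W
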