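import Pool.Agent.Q41.W.Block

set_option autoImplicit false

namespace Pool.Agent.Q41.W

open Finset

/-- `y` is a sum of distinct unit fractions whose denominators are divisors `> 1` of `N` -/
def Rep (N : ℕ) (y : ℝ) : Prop := ∃ D : Finset ℕ, (∀ d ∈ D, d ∣ N ∧ 1 < d) ∧ ∑ d ∈ D, 1 / (d : ℝ) = y

/-- a sequence of dense dyadic blocks of primes -/
structure Lad (i0 : ℕ) (Q : ℕ → Finset ℕ) : Prop where
  cond : ∀ i, i0 ≤ i → Cond i
  prime : ∀ i, ∀ p ∈ Q i, p.Prime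
  lo : ∀ i, ∀ p ∈ Q i, 2 ^ i ≤ p
  hi : ∀ i, ∀ p ∈ Q i, p < 2 ^ (i + 1)
  start : ∀ i, i < i0 → Q i = ∅
  dense : ∀ i, (Q i).Nonempty → 2 ^ i ≤ i ^ 2 * (Q i).card

variable {i0 : ℕ} {Q : ℕ → Finset ℕ}

/-- product of the `i`-th block -/
def Rb (Q : ℕ → Finset ℕ) (i : ℕ) : ℕ := ∏ p ∈ Q i, p

/-- product of the blocks below `i` -/
def Nb (Q : ℕ → Finset ℕ) (i : ℕ) : ℕ := ∏ j ∈ range i, Rb Q j

/-- sum of the reciprocals in the `i`-th block -/
noncomputable def eb (Q : ℕ → Finset ℕ) (i : ℕ) : ℝ := ∑ p ∈ Q i, 1 / (p : ℝ)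

/-- sum of the reciprocals in the blocks below `i` -/
noncomputable def Sb (Q : ℕ → Finset ℕ) (i : ℕ) : ℝ := ∑ j ∈ range i, eb Q j

lemma Nb_succ (i : ℕ) : Nb Q (i + 1) = Nb Q i * Rb Q i := prod_range_succ _ _

lemma Sb_succ (i : ℕ) : Sb Q (i + 1) = Sb Q i + eb Q i := sum_range_succ _ _

lemma eb_nonneg (i : ℕ) : 0 ≤ eb Q i := sum_nonneg fun _ _ => by positivity

lemma Sb_nonneg (i : ℕ) : 0 ≤ Sb Q i := sum_nonneg fun _ _ => eb_nonneg _

lemma Lad.Rb_pos (hL : Lad i0 Q) (i : ℕ) : 0 < Rb Q i := prod_pos fun p hp => (hL.prime i p hp).pos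

lemma Lad.Nb_pos (hL : Lad i0 Q) (i : ℕ) : 0 < Nb Q i := prod_pos fun j _ => hL.Rb_pos j

lemma Lad.eb_le_one (hL : Lad i0 Q) (i : ℕ) : eb Q i ≤ 1 := by
  have h1 : ∀ p ∈ Q i, 1 / (p : ℝ) ≤ 1 / (2 : ℝ) ^ i := fun p hp =>
    one_div_le_one_div_of_le (by positivity) (by exact_mod_cast hL.lo i p hp)
  have hQx : (Q i).card ≤ 2 ^ i := by
    have : Q i ⊆ Finset.Ico (2 ^ i) (2 ^ (i + 1)) := fun p hp => Finset.mem_Ico.2 ⟨hL.lo i p hp, hL.hi i p hp⟩
    have := Finset.card_le_card this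
    rw [Nat.card_Ico, pow_succ] at this
    omega
  calc eb Q i ≤ ∑ p ∈ Q i, 1 / (2 : ℝ) ^ i := sum_le_sum h1
    _ = (Q i).card * (1 / (2 : ℝ) ^ i) := by rw [sum_const, nsmul_eq_mul]
    _ ≤ (2 : ℝ) ^ i * (1 / (2 : ℝ) ^ i) := by
        apply mul_le_mul_of_nonneg_right _ (by positivity)
        exact_mod_cast hQx
    _ = 1 := by field_simp

lemma Lad.ge_i0 (hL : Lad i0 Q) {i : ℕ} (hne : (Q i).Nonempty) : i0 ≤ i := by
  by_contra h
  rw [not_le] at h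
  rw [hL.start i h] at hne
  simp at hne

lemma Lad.eb_lo (hL : Lad i0 Q) {i : ℕ} (hne : (Q i).Nonempty) : 1 / (2 * (i : ℝ) ^ 2) ≤ eb Q i := by
  have hi := hL.cond i (hL.ge_i0 hne)
  have hi1 : (1 : ℝ) ≤ i := by exact_mod_cast hi.pos
  have h1 : ∀ p ∈ Q i, 1 / (2 * (2 : ℝ) ^ i) ≤ 1 / (p : ℝ) := by
    intro p hp
    apply one_div_le_one_div_of_le (by exact_mod_cast (hL.prime i p hp).pos)
    have := hL.hi i p hp
    rw [pow_succ, mul_comm] at this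
    exact_mod_cast this.le
  have hd : (2 : ℝ) ^ i ≤ (i : ℝ) ^ 2 * (Q i).card := by exact_mod_cast hL.dense i hne
  calc 1 / (2 * (i : ℝ) ^ 2) = 2 ^ i * (1 / (2 * 2 ^ i * (i : ℝ) ^ 2)) := by field_simp
    _ ≤ ((i : ℝ) ^ 2 * (Q i).card) * (1 / (2 * 2 ^ i * (i : ℝ) ^ 2)) :=
        mul_le_mul_of_nonneg_right hd (by positivity)
    _ = (Q i).card * (1 / (2 * (2 : ℝ) ^ i)) := by field_simp
    _ = ∑ p ∈ Q i, 1 / (2 * (2 : ℝ) ^ i) := by rw [sum_const, nsmul_eq_mul]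
    _ ≤ eb Q i := sum_le_sum h1

lemma Lad.coprime (hL : Lad i0 Q) (i : ℕ) : Nat.Coprime (Rb Q i) (Nb Q i) := by
  unfold Rb Nb
  apply Nat.Coprime.prod_left
  intro p hp
  apply Nat.Coprime.prod_right
  intro j hj
  unfold Rb
  apply Nat.Coprime.prod_right
  intro q hq
  rw [Nat.coprime_primes (hL.prime i p hp) (hL.prime j q hq)]
  intro h
  rw [mem_range] at hj
  have h1 := hL.lo i p hp
  have h2 := hL.hi j q hq
  have h3 : 2 ^ (j + 1) ≤ 2 ^ i := Nat.pow_le_pow_right (by norm_num) hj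
  omega

lemma Lad.Rb_ge (hL : Lad i0 Q) {i : ℕ} (hne : (Q i).Nonempty) : 2 ^ i ≤ Rb Q i := by
  obtain ⟨p, hp⟩ := hne
  exact (hL.lo i p hp).trans (Nat.le_of_dvd (hL.Rb_pos i) (dvd_prod_of_mem (fun p => p) hp))

/-- a squarefree-like product has divisors in every window of the right length -/
lemma exists_dvd_window (s : Finset ℕ) (X Y : ℕ) (hX : 0 < X) (h0 : ∀ p ∈ s, p ≤ X) (hY : Y ≤ ∏ p ∈ s, p) (hY1 : 1 ≤ Y) :
    ∃ t ⊆ s, Y ≤ ∏ p ∈ t, p ∧ ∏ p ∈ t, p ≤ Y * X := by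
  induction s using Finset.induction_on with
  | empty =>
    refine ⟨∅, by simp, hY, ?_⟩
    simp at hY ⊢
    exact Nat.mul_pos hY1 hX
  | insert a s ha ih =>
    by_cases hle : Y ≤ ∏ p ∈ s, p
    · obtain ⟨t, ht, h⟩ := ih (fun p hp => h0 p (mem_insert_of_mem hp)) hle
      exact ⟨t, ht.trans (subset_insert _ _), h⟩
    · rw [not_le] at hle
      refine ⟨insert a s, subset_refl _, hY, ?_⟩
      rw [prod_insert ha, mul_comm]
      exact Nat.mul_le_mul hle.le (h0 a (mem_insert_self _ _))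

lemma Lad.exists_M (hL : Lad i0 Q) (i : ℕ) (hi : Cond i) (hbig : 256 * i ^ 2 < Nb Q i) :
    ∃ M, M ∣ Nb Q i ∧ 256 * i ^ 2 ≤ M ∧ M ≤ 256 * i ^ 2 * 2 ^ i := by
  have e1 : Nb Q i = ∏ p ∈ (range i).biUnion Q, p := by
    unfold Nb Rb
    rw [prod_biUnion]
    intro j _ l _ hjl
    change Disjoint (Q j) (Q l)
    rw [Finset.disjoint_left]
    intro p hp hp'
    have a1 := hL.lo j p hp
    have a2 := hL.hi j p hp
    have b1 := hL.lo l p hp'
    have b2 := hL.hi l p hp'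
    have c1 : 2 ^ j < 2 ^ (l + 1) := by omega
    have c2 : 2 ^ l < 2 ^ (j + 1) := by omega
    have d1 := (Nat.pow_lt_pow_iff_right (by norm_num)).1 c1
    have d2 := (Nat.pow_lt_pow_iff_right (by norm_num)).1 c2
    omega
  obtain ⟨t, ht, h1, h2⟩ := exists_dvd_window ((range i).biUnion Q) (2 ^ i) (256 * i ^ 2) (by positivity) (by
    intro p hp
    rw [mem_biUnion] at hp
    obtain ⟨j, hj, hpj⟩ := hp
    rw [mem_range] at hj
    exact (hL.hi j p hpj).le.trans (Nat.pow_le_pow_right (by norm_num) hj)) (by rw [← e1]; exact hbig.le) (by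
      have := hi.pos
      have : 1 ≤ i ^ 2 := Nat.one_le_pow _ _ this
      omega)
  exact ⟨∏ p ∈ t, p, by rw [e1]; exact prod_dvd_prod_of_subset _ _ _ ht, h1, h2⟩

/-- all numbers with denominator `N i` close to `m / N i` are representable -/
def Good (Q : ℕ → Finset ℕ) (i : ℕ) (m : ℤ) : Prop :=
  ∀ Y : ℤ, |(Y : ℝ) / Nb Q i - m / Nb Q i| ≤ 1 / (128 * (i : ℝ) ^ 2) → Rep (Nb Q i) (Y / Nb Q i)

lemma combine (hL : Lad i0 Q) (i : ℕ) (M : ℕ) (hMN : M ∣ Nb Q i) (y1 y2 : ℝ) (h1 : Rep (Nb Q i) y1)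
    (h2 : ∃ D : Finset ℕ, (∀ d ∈ D, d ∣ M * Rb Q i ∧ ∃ p ∈ Q i, p ∣ d) ∧ ∑ d ∈ D, 1 / (d : ℝ) = y2) :
    Rep (Nb Q (i + 1)) (y1 + y2) := by
  classical
  obtain ⟨D1, hD1, hs1⟩ := h1
  obtain ⟨D2, hD2, hs2⟩ := h2
  have hdisj : Disjoint D1 D2 := by
    rw [Finset.disjoint_left]
    intro d hd1 hd2
    obtain ⟨p, hp, hpd⟩ := (hD2 d hd2).2
    have h3 : p ∣ Nb Q i := hpd.trans (hD1 d hd1).1
    have h4 : p ∣ Rb Q i := dvd_prod_of_mem (fun p => p) hp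
    have := Nat.eq_one_of_dvd_coprimes (hL.coprime i) h4 h3
    exact (hL.prime i p hp).one_lt.ne' this
  refine ⟨D1 ∪ D2, ?_, by rw [sum_union hdisj, hs1, hs2]⟩
  intro d hd
  rw [mem_union] at hd
  rw [Nb_succ]
  rcases hd with hd | hd
  · exact ⟨(hD1 d hd).1.mul_right _, (hD1 d hd).2⟩
  · obtain ⟨h3, p, hp, hpd⟩ := hD2 d hd
    refine ⟨h3.trans (mul_dvd_mul_right hMN _), ?_⟩
    have hdpos : 0 < d := by
      apply Nat.pos_of_dvd_of_pos h3
      exact Nat.mul_pos (Nat.pos_of_dvd_of_pos hMN (hL.Nb_pos i)) (hL.Rb_pos i)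
    exact (hL.prime i p hp).one_lt.trans_le (Nat.le_of_dvd hdpos hpd)

/-- **Step**: from `m / N i` to `m' / N (i + 1)`. -/
theorem step (hL : Lad i0 Q) (i : ℕ) (hne : (Q i).Nonempty) (m m' : ℤ) (hG : Good Q i m)
    (h1 : eb Q i / 17 ≤ (m' : ℝ) / Nb Q (i + 1) - m / Nb Q i)
    (h2 : (m' : ℝ) / Nb Q (i + 1) - m / Nb Q i ≤ 19 / 20 * eb Q i) : Good Q (i + 1) m' := by
  intro Y hY
  have hi := hL.cond i (hL.ge_i0 hne)
  have hi1 : (1 : ℝ) ≤ i := by exact_mod_cast hi.pos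
  have hε := hL.eb_lo hne
  have hR := hL.Rb_pos i
  have hN := hL.Nb_pos i
  have hR0 : (0 : ℝ) < Rb Q i := by exact_mod_cast hR
  have hN0 : (0 : ℝ) < Nb Q i := by exact_mod_cast hN
  have hcop := hL.coprime i
  set ε := eb Q i with hεdef
  have hNs : (Nb Q (i + 1) : ℝ) = Nb Q i * Rb Q i := by
    rw [Nb_succ]; push_cast; ring
  have hNs0 : (0 : ℝ) < Nb Q (i + 1) := by rw [hNs]; positivity
  set y := (Y : ℝ) / Nb Q (i + 1) with hy
  have hYε : |y - m' / Nb Q (i + 1)| ≤ ε / 64 := by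
    refine hY.trans ?_
    have h3 : 1 / (128 * ((i + 1 : ℕ) : ℝ) ^ 2) ≤ 1 / (128 * (i : ℝ) ^ 2) := by
      apply one_div_le_one_div_of_le (by positivity)
      push_cast
      nlinarith
    have h4 : 1 / (128 * (i : ℝ) ^ 2) = 1 / (2 * (i : ℝ) ^ 2) / 64 := by field_simp; norm_num
    rw [h4] at h3
    linarith
  rw [abs_le] at hYε
  set T0 := y - m / Nb Q i with hT0
  by_cases hgap : Nb Q i ≤ 256 * i ^ 2
  · -- gap case: `M = N i`
    have hG0 : Rep (Nb Q i) (m / Nb Q i) := hG m (by simp)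
    have hT : T0 = ((Y - m * Rb Q i : ℤ) : ℝ) / (Nb Q i * (∏ p ∈ Q i, p : ℕ)) := by
      change T0 = ((Y - m * Rb Q i : ℤ) : ℝ) / (Nb Q i * (Rb Q i : ℝ))
      rw [hT0, hy, hNs]
      push_cast
      field_simp
    have hlev := block_level i hi (Q i) (hL.prime i) (hL.lo i) (hL.hi i) (hL.dense i hne) (Nb Q i) hN hcop
      (hgap.trans (Nat.le_mul_of_pos_right _ (by positivity))) (Y - m * Rb Q i)
      (by rw [← hT]; change ε / 32 ≤ T0; linarith) (by rw [← hT]; change T0 ≤ ε; linarith)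
    rw [← hT] at hlev
    have := combine hL i (Nb Q i) dvd_rfl _ _ hG0 hlev
    have e : (m : ℝ) / Nb Q i + T0 = y := by rw [hT0]; ring
    rw [e] at this
    exact this
  · rw [not_le] at hgap
    obtain ⟨M, hMN, hM1, hM2⟩ := hL.exists_M i hi hgap
    obtain ⟨W, hW⟩ := hMN
    have hM0 : 0 < M := by
      have := hi.pos
      have : 1 ≤ i ^ 2 := Nat.one_le_pow _ _ this
      omega
    have hM0' : (0 : ℝ) < M := by exact_mod_cast hM0
    have hW0 : 0 < W := by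
      rcases Nat.eq_zero_or_pos W with h | h
      · rw [h, mul_zero] at hW; omega
      · exact h
    have hW0' : (0 : ℝ) < W := by exact_mod_cast hW0
    have hcopW : Nat.Coprime (Rb Q i) W := Nat.Coprime.coprime_dvd_right (Dvd.intro_left _ hW.symm) hcop
    have hcopM : Nat.Coprime (Rb Q i) M := Nat.Coprime.coprime_dvd_right (Dvd.intro _ hW.symm) hcop
    -- solve `k W ≡ Y mod R`
    obtain ⟨k0, hk0⟩ : ∃ k0 : ℤ, (Rb Q i : ℤ) ∣ Y - k0 * W := by
      have hb : IsCoprime (Rb Q i : ℤ) (W : ℤ) := Nat.isCoprime_iff_coprime.2 hcopW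
      obtain ⟨u, v, huv⟩ := hb
      refine ⟨Y * v, ⟨Y * u, ?_⟩⟩
      have : Y * (u * Rb Q i + v * W) = Y := by rw [huv, mul_one]
      linear_combination -this
    set j := round ((T0 - k0 / (M * Rb Q i)) * M) with hj
    set k := k0 + Rb Q i * j with hk
    have hkT : |(k : ℝ) / (M * Rb Q i) - T0| ≤ 1 / (2 * M) := by
      have h3 := abs_sub_round ((T0 - k0 / (M * Rb Q i)) * M)
      have e1 : (k : ℝ) / (M * Rb Q i) - T0 = -(((T0 - k0 / (M * Rb Q i)) * M - j) / M) := by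
        rw [hk]
        push_cast
        field_simp
        ring
      rw [e1, abs_neg, abs_div, abs_of_pos hM0']
      calc |(T0 - k0 / (M * Rb Q i)) * M - j| / M ≤ (1 / 2) / M := div_le_div_of_nonneg_right h3 hM0'.le
        _ = 1 / (2 * M) := by field_simp
    obtain ⟨Y', hY'⟩ : (Rb Q i : ℤ) ∣ Y - k * W := by
      have : Y - k * W = (Y - k0 * W) - Rb Q i * (j * W) := by rw [hk]; ring
      rw [this]
      exact dvd_sub hk0 (Dvd.intro _ rfl)
    have hNW : (Nb Q i : ℝ) = M * W := by rw [hW]; push_cast; ring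
    have e2 : y - (k : ℝ) / (M * Rb Q i) = (Y' : ℝ) / Nb Q i := by
      have h3 : (Y : ℝ) - k * W = Rb Q i * Y' := by exact_mod_cast hY'
      rw [hy, hNs, hNW]
      have h4 : (Y : ℝ) = k * W + Rb Q i * Y' := by linarith
      rw [h4]
      field_simp
      ring
    have hM256 : 1 / (2 * (M : ℝ)) ≤ ε / 256 := by
      have h3 : (256 * (i : ℝ) ^ 2) ≤ M := by exact_mod_cast hM1
      have h4 : 1 / (2 * (M : ℝ)) ≤ 1 / (2 * (256 * (i : ℝ) ^ 2)) :=
        one_div_le_one_div_of_le (by positivity) (by linarith)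
      have h5 : 1 / (2 * (256 * (i : ℝ) ^ 2)) = 1 / (2 * (i : ℝ) ^ 2) / 256 := by field_simp
      rw [h5] at h4
      linarith
    have hM128 : 1 / (2 * (M : ℝ)) ≤ 1 / (128 * (i : ℝ) ^ 2) := by
      have h3 : (256 * (i : ℝ) ^ 2) ≤ M := by exact_mod_cast hM1
      apply one_div_le_one_div_of_le (by positivity)
      nlinarith [sq_nonneg (i : ℝ)]
    have hlow : Rep (Nb Q i) ((Y' : ℝ) / Nb Q i) := by
      apply hG
      rw [← e2]
      have e3 : y - (k : ℝ) / (M * Rb Q i) - m / Nb Q i = -((k : ℝ) / (M * Rb Q i) - T0) := by rw [hT0]; ring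
      rw [e3, abs_neg]
      exact hkT.trans hM128
    rw [abs_le] at hkT
    have hlev := block_level i hi (Q i) (hL.prime i) (hL.lo i) (hL.hi i) (hL.dense i hne) M hM0 hcopM hM2 k
      (by change ε / 32 ≤ (k : ℝ) / (M * Rb Q i); linarith) (by change (k : ℝ) / (M * Rb Q i) ≤ ε; linarith)
    have := combine hL i M (Dvd.intro _ hW.symm) _ _ hlow hlev
    rw [← e2] at this
    have e4 : y - (k : ℝ) / (M * Rb Q i) + (k : ℝ) / (M * (∏ p ∈ Q i, p : ℕ)) = y := by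
      change y - (k : ℝ) / (M * Rb Q i) + (k : ℝ) / (M * (Rb Q i : ℝ)) = y
      ring
    rw [e4] at this
    exact this

end Pool.Agent.Q41.W
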