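import Pool.Agent.Q41.W.Corr

set_option autoImplicit false

namespace Pool.Agent.Q41.W

open Finset

/-- subset sums of units fill `ZMod M` -/
lemma unit_card {ι : Type*} [DecidableEq ι] (M : ℕ) [NeZero M] (u : ι → ZMod M) (s : Finset ι)
    (hu : ∀ i ∈ s, IsUnit (u i)) :
    min M (s.card + 1) ≤ (s.powerset.image (fun I => ∑ i ∈ I, u i)).card := by
  induction s using Finset.induction_on with
  | empty => simp
  | insert a s ha ih =>
    have ih' := ih (fun i hi => hu i (mem_insert_of_mem hi))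
    set A := s.powerset.image (fun I => ∑ i ∈ I, u i) with hA
    set A' := (insert a s).powerset.image (fun I => ∑ i ∈ I, u i) with hA'
    have hsub : A ⊆ A' := image_subset_image (powerset_mono.2 (subset_insert _ _))
    have hsub2 : ∀ b ∈ A, b + u a ∈ A' := by
      intro b hb
      rw [hA, mem_image] at hb
      obtain ⟨I, hI, rfl⟩ := hb
      rw [mem_powerset] at hI
      rw [hA', mem_image]
      refine ⟨insert a I, ?_, ?_⟩
      · rw [mem_powerset]
        exact insert_subset_insert _ hI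
      · rw [sum_insert (fun h => ha (hI h)), add_comm]
    rw [card_insert_of_notMem ha]
    by_cases hcl : ∀ b ∈ A, b + u a ∈ A
    · have h0 : (0 : ZMod M) ∈ A := by
        rw [hA, mem_image]
        exact ⟨∅, by simp, by simp⟩
      have hall : ∀ m : ℕ, (m : ZMod M) * u a ∈ A := by
        intro m
        induction m with
        | zero => simpa using h0
        | succ m ihm =>
          have := hcl _ ihm
          have e : ((m + 1 : ℕ) : ZMod M) * u a = (m : ZMod M) * u a + u a := by push_cast; ring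
          rw [e]; exact this
      have huniv : A = univ := by
        rw [eq_univ_iff_forall]
        intro z
        obtain ⟨v, hv⟩ := hu a (mem_insert_self _ _)
        have := hall (z * (↑v⁻¹ : ZMod M)).val
        rw [ZMod.natCast_zmod_val, ← hv, mul_assoc, Units.inv_mul, mul_one] at this
        exact this
      have : A' = univ := by
        rw [eq_univ_iff_forall]
        intro z
        exact hsub (by rw [huniv]; exact mem_univ z)
      rw [this, card_univ, ZMod.card]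
      exact min_le_left _ _
    · push Not at hcl
      obtain ⟨b, hb, hb'⟩ := hcl
      have hlt : A.card < A'.card := by
        apply card_lt_card
        rw [ssubset_iff_of_subset hsub]
        exact ⟨_, hsub2 b hb, hb'⟩
      omega

lemma unit_sum {ι : Type*} [DecidableEq ι] (M : ℕ) [NeZero M] (u : ι → ZMod M) (s : Finset ι)
    (hu : ∀ i ∈ s, IsUnit (u i)) (hs : M ≤ s.card + 1) (z : ZMod M) : ∃ I ⊆ s, ∑ i ∈ I, u i = z := by
  have h1 := unit_card M u s hu
  rw [min_eq_left hs] at h1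
  have h2 : s.powerset.image (fun I => ∑ i ∈ I, u i) = univ := by
    apply eq_univ_of_card
    rw [ZMod.card]
    apply le_antisymm _ h1
    have := card_le_univ (s.powerset.image (fun I => ∑ i ∈ I, u i))
    rwa [ZMod.card] at this
  have h3 : z ∈ s.powerset.image (fun I => ∑ i ∈ I, u i) := by rw [h2]; exact mem_univ z
  rw [mem_image] at h3
  obtain ⟨I, hI, h⟩ := h3
  exact ⟨I, mem_powerset.1 hI, h⟩

lemma greedy {ι : Type*} [DecidableEq ι] (s : Finset ι) (f : ι → ℝ) (δ : ℝ) (hδ : 0 ≤ δ) (h0 : ∀ i ∈ s, 0 ≤ f i)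
    (h1 : ∀ i ∈ s, f i ≤ δ) (V : ℝ) (hV0 : 0 ≤ V) (hV : V ≤ ∑ i ∈ s, f i) :
    ∃ t ⊆ s, V - δ ≤ ∑ i ∈ t, f i ∧ ∑ i ∈ t, f i ≤ V := by
  induction s using Finset.induction_on with
  | empty =>
    refine ⟨∅, by simp, ?_, ?_⟩
    · simp at hV ⊢; linarith
    · simpa using hV0
  | insert a s ha ih =>
    by_cases hle : V ≤ ∑ i ∈ s, f i
    · obtain ⟨t, ht, h⟩ := ih (fun i hi => h0 i (mem_insert_of_mem hi)) (fun i hi => h1 i (mem_insert_of_mem hi)) hle
      exact ⟨t, ht.trans (subset_insert _ _), h⟩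
    · rw [not_le] at hle
      refine ⟨s, subset_insert _ _, ?_, hle.le⟩
      rw [sum_insert ha] at hV
      have := h1 a (mem_insert_self _ _)
      linarith

section
variable {x : ℕ} {Λ : ℝ} {P : Fin 8 → Finset ℕ}

lemma Nn_inj (hB : Blk x Λ P) : Set.InjOn Nn (Fintype.piFinset P : Set (Fin 8 → ℕ)) := by
  intro a ha b hb hab
  rw [mem_coe] at ha hb
  funext j
  have hp := hB.mem_prime ha j
  have h1 : a j ∣ Nn b := by
    rw [← show Nn a = Nn b from hab]
    exact dvd_prod_of_mem a (mem_univ j)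
  unfold Nn at h1
  rw [hp.prime.dvd_finsetProd_iff] at h1
  obtain ⟨l, _, hl⟩ := h1
  rw [Nat.prime_dvd_prime_iff_eq hp (hB.mem_prime hb l)] at hl
  by_cases hlj : l = j
  · rw [hlj] at hl; exact hl
  · exfalso
    have h2 := Fintype.mem_piFinset.1 ha j
    have h3 := Fintype.mem_piFinset.1 hb l
    rw [← hl] at h3
    exact Finset.disjoint_left.1 (hB.disj l j hlj) h3 h2

lemma pair_inj (hB : Blk x Λ P) (M : ℕ) (hM : 0 < M) :
    Set.InjOn (fun q : ℕ × ℕ => M * (q.1 * q.2)) (P 0 ×ˢ P 1 : Set (ℕ × ℕ)) := by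
  rintro ⟨q, q'⟩ hq ⟨s, s'⟩ hs h
  simp only [Set.mem_prod, mem_coe] at hq hs
  have h1 : q * q' = s * s' := Nat.eq_of_mul_eq_mul_left hM h
  have hqp := hB.prime 0 q hq.1
  have hsp := hB.prime 0 s hs.1
  have hs'p := hB.prime 1 s' hs.2
  have hd : q ∣ s * s' := by rw [← h1]; exact Dvd.intro _ rfl
  rcases (hqp.dvd_mul).1 hd with h2 | h2
  · rw [Nat.prime_dvd_prime_iff_eq hqp hsp] at h2
    subst h2
    have := Nat.eq_of_mul_eq_mul_left hqp.pos h1
    rw [this]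
  · rw [Nat.prime_dvd_prime_iff_eq hqp hs'p] at h2
    subst h2
    exact absurd hs.2 (Finset.disjoint_left.1 (hB.disj 0 1 (by decide)) hq.1)

/-- **Level lemma.** -/
theorem level (hB : Blk x Λ P) (h4 : ∀ j, 4 * (P j).card ≤ x) (M : ℕ) (hM : 0 < M)
    (hcop : Nat.Coprime (∏ p ∈ Qs P, p) M) (hMx : (M : ℝ) * Λ ^ 2 ≤ x ^ 2) (k : ℤ)
    (hlo : (∑ p ∈ Qs P, 1 / (p : ℝ)) / 32 ≤ (k : ℝ) / (M * (∏ p ∈ Qs P, p : ℕ)))
    (hhi : (k : ℝ) / (M * (∏ p ∈ Qs P, p : ℕ)) ≤ ∑ p ∈ Qs P, 1 / (p : ℝ)) :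
    ∃ D : Finset ℕ, (∀ d ∈ D, d ∣ M * (∏ p ∈ Qs P, p) ∧ ∃ p ∈ Qs P, p ∣ d) ∧
      ∑ d ∈ D, 1 / (d : ℝ) = (k : ℝ) / (M * (∏ p ∈ Qs P, p : ℕ)) := by
  classical
  have hx := hB.x_big
  have hΛ := hB.one
  have hbig := hB.big
  have hx0 : (0 : ℝ) < x := by linarith
  have hΛ0 : (0 : ℝ) < Λ := by linarith
  have hxN : 0 < x := by exact_mod_cast hx0
  set Q := Qs P with hQ
  set R := ∏ p ∈ Q, p with hR
  set ε := ∑ p ∈ Q, 1 / (p : ℝ) with hε
  set E := Fintype.piFinset P with hE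
  set σ := ∑ a ∈ E, 1 / (Nn a : ℝ) with hσ
  have hRpos : 0 < R := prod_pos fun p hp => (hB.Q_prime hp).pos
  have hR0 : (0 : ℝ) < R := by exact_mod_cast hRpos
  have hM0 : (0 : ℝ) < M := by exact_mod_cast hM
  have hNR : ∀ a ∈ E, Nn a ∣ R := by
    intro a ha
    have : ((∏ j ∈ (univ : Finset (Fin 8)), a j : ℕ) : ℤ) ∣ (R : ℤ) := by
      apply hB.prod_dvd ha
      intro j _
      have : a j ∈ Q := mem_biUnion.2 ⟨j, mem_univ j, Fintype.mem_piFinset.1 ha j⟩
      exact_mod_cast dvd_prod_of_mem (fun p => p) this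
    exact_mod_cast this
  have hPQ : ∀ j, P j ⊆ Q := fun j p hp => mem_biUnion.2 ⟨j, mem_univ j, hp⟩
  -- size of σ
  have hσlo : 1 / (256 * Λ ^ 8) ≤ σ := by
    have h1 : ∀ a ∈ E, 1 / (256 * (x : ℝ) ^ 8) ≤ 1 / (Nn a : ℝ) := by
      intro a ha
      exact one_div_le_one_div_of_le (by exact_mod_cast hB.Nn_pos ha) (hB.Nn_hi ha)
    calc 1 / (256 * Λ ^ 8) = (x : ℝ) ^ 8 / Λ ^ 8 * (1 / (256 * (x : ℝ) ^ 8)) := by field_simp
      _ ≤ E.card * (1 / (256 * (x : ℝ) ^ 8)) := mul_le_mul_of_nonneg_right hB.card_lo (by positivity)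
      _ = ∑ a ∈ E, 1 / (256 * (x : ℝ) ^ 8) := by rw [sum_const, nsmul_eq_mul]
      _ ≤ σ := sum_le_sum h1
  have hσstep : 1 / (x : ℝ) ≤ σ / 2 := by
    have h1 : 1 / (x : ℝ) ≤ 1 / (512 * Λ ^ 8) := by
      apply one_div_le_one_div_of_le (by positivity)
      have : Λ ^ 8 ≤ Λ ^ 9 := pow_le_pow_right₀ hΛ (by norm_num)
      have : 0 < Λ ^ 9 := by positivity
      linarith
    have h2 : 1 / (512 * Λ ^ 8) = 1 / (256 * Λ ^ 8) / 2 := by field_simp; norm_num
    rw [h2] at h1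
    linarith
  have hεj : ∀ j, ∑ p ∈ P j, 1 / (p : ℝ) ≤ 1 / 4 := by
    intro j
    have h1 : ∀ p ∈ P j, 1 / (p : ℝ) ≤ 1 / x := fun p hp =>
      one_div_le_one_div_of_le hx0 (by exact_mod_cast hB.lo j p hp)
    calc ∑ p ∈ P j, 1 / (p : ℝ) ≤ ∑ p ∈ P j, 1 / (x : ℝ) := sum_le_sum h1
      _ = (P j).card * (1 / (x : ℝ)) := by rw [sum_const, nsmul_eq_mul]
      _ ≤ (x / 4) * (1 / (x : ℝ)) := by
          apply mul_le_mul_of_nonneg_right _ (by positivity)
          have : (4 * (P j).card : ℝ) ≤ x := by exact_mod_cast h4 j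
          linarith
      _ = 1 / 4 := by field_simp
  have hεj0 : ∀ j, 0 ≤ ∑ p ∈ P j, 1 / (p : ℝ) := fun j => sum_nonneg fun _ _ => by positivity
  have hσhi : σ ≤ ε / 16384 := by
    have e1 : σ = ∏ j, ∑ p ∈ P j, 1 / (p : ℝ) := by
      rw [Finset.prod_univ_sum]
      apply sum_congr rfl
      intro a _
      unfold Nn
      push_cast
      rw [one_div, ← Finset.prod_inv_distrib]
      simp
    rw [e1, Fin.prod_univ_succ]
    have h1 : ∑ p ∈ P 0, 1 / (p : ℝ) ≤ ε := sum_le_sum_of_subset_of_nonneg (hPQ 0) fun _ _ _ => by positivity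
    have h2 : ∏ j : Fin 7, ∑ p ∈ P j.succ, 1 / (p : ℝ) ≤ (1 / 4) ^ 7 := by
      have := Finset.prod_le_prod (s := (univ : Finset (Fin 7))) (f := fun j => ∑ p ∈ P j.succ, 1 / (p : ℝ))
        (g := fun _ => (1 : ℝ) / 4) (fun j _ => hεj0 _) (fun j _ => hεj _)
      simpa using this
    calc (∑ p ∈ P 0, 1 / (p : ℝ)) * ∏ j : Fin 7, ∑ p ∈ P j.succ, 1 / (p : ℝ) ≤ ε * (1 / 4) ^ 7 := by
          apply mul_le_mul h1 h2 (prod_nonneg fun j _ => hεj0 _) ((hεj0 0).trans h1)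
      _ = ε / 16384 := by norm_num; ring
  have hεlo : 1 / (2 * Λ) ≤ ε := by
    have h1 : ∀ p ∈ P 0, 1 / (2 * (x : ℝ)) ≤ 1 / (p : ℝ) := fun p hp =>
      one_div_le_one_div_of_le (by exact_mod_cast (hB.prime 0 p hp).pos) (by exact_mod_cast (hB.hi 0 p hp).le)
    calc 1 / (2 * Λ) = x / Λ * (1 / (2 * (x : ℝ))) := by field_simp
      _ ≤ (P 0).card * (1 / (2 * (x : ℝ))) := mul_le_mul_of_nonneg_right (hB.card 0) (by positivity)
      _ = ∑ p ∈ P 0, 1 / (2 * (x : ℝ)) := by rw [sum_const, nsmul_eq_mul]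
      _ ≤ ∑ p ∈ P 0, 1 / (p : ℝ) := sum_le_sum h1
      _ ≤ ε := sum_le_sum_of_subset_of_nonneg (hPQ 0) fun _ _ _ => by positivity
  have hadjε : 1 / (x : ℝ) ^ 2 ≤ ε / 64 := by
    have h1 : 1 / (x : ℝ) ^ 2 ≤ 1 / (2 * Λ) / 64 := by
      rw [div_div]
      apply one_div_le_one_div_of_le (by positivity)
      have h2 : Λ ≤ Λ ^ 9 := by
        calc Λ = Λ ^ 1 := by ring
          _ ≤ Λ ^ 9 := pow_le_pow_right₀ hΛ (by norm_num)
      nlinarith
    linarith
  -- adjusters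
  have : NeZero M := ⟨hM.ne'⟩
  have hcardpair : M ≤ (P 0 ×ˢ P 1).card := by
    have h1 : (x : ℝ) / Λ * (x / Λ) ≤ ((P 0 ×ˢ P 1).card : ℝ) := by
      rw [card_product]
      push_cast
      exact mul_le_mul (hB.card 0) (hB.card 1) (by positivity) (Nat.cast_nonneg _)
    have h2 : (M : ℝ) ≤ x / Λ * (x / Λ) := by
      rw [div_mul_div_comm, le_div_iff₀ (by positivity)]
      calc (M : ℝ) * (Λ * Λ) = M * Λ ^ 2 := by ring
        _ ≤ x ^ 2 := hMx
        _ = x * x := by ring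
    exact_mod_cast h2.trans h1
  obtain ⟨I0, hI0, hI0c⟩ := Finset.exists_subset_card_eq (show M - 1 ≤ (P 0 ×ˢ P 1).card by omega)
  have hpairR : ∀ q ∈ P 0 ×ˢ P 1, q.1 * q.2 ∣ R := by
    intro q hq
    rw [mem_product] at hq
    have hp1 := hB.prime 0 _ hq.1
    have hp2 := hB.prime 1 _ hq.2
    apply Nat.Coprime.mul_dvd_of_dvd_of_dvd
    · rw [Nat.coprime_primes hp1 hp2]
      intro h
      have h2 := hq.2
      rw [← h] at h2
      exact Finset.disjoint_left.1 (hB.disj 0 1 (by decide)) hq.1 h2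
    · exact dvd_prod_of_mem (fun p => p) (hPQ 0 hq.1)
    · exact dvd_prod_of_mem (fun p => p) (hPQ 1 hq.2)
  obtain ⟨I, hI, hIsum⟩ := unit_sum M (fun q : ℕ × ℕ => ((R / (q.1 * q.2) : ℕ) : ZMod M)) I0 (by
    intro q hq
    rw [ZMod.isUnit_iff_coprime]
    exact Nat.Coprime.coprime_dvd_left (Nat.div_dvd_of_dvd (hpairR q (hI0 hq))) hcop) (by omega) (k : ZMod M)
  have hIsub : I ⊆ P 0 ×ˢ P 1 := hI.trans hI0
  have hdvd : (M : ℤ) ∣ k - ∑ q ∈ I, ((R / (q.1 * q.2) : ℕ) : ℤ) := by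
    rw [← ZMod.intCast_zmod_eq_zero_iff_dvd]
    rw [Int.cast_sub, Int.cast_sum, sub_eq_zero]
    simp only [Int.cast_natCast]
    exact hIsum.symm
  obtain ⟨k', hk'⟩ := hdvd
  set adj := ∑ q ∈ I, 1 / ((M * (q.1 * q.2) : ℕ) : ℝ) with hadj
  have hadj0 : 0 ≤ adj := sum_nonneg fun _ _ => by positivity
  have hpairlo : ∀ q ∈ P 0 ×ˢ P 1, x * x ≤ q.1 * q.2 := by
    intro q hq
    rw [mem_product] at hq
    exact Nat.mul_le_mul (hB.lo 0 _ hq.1) (hB.lo 1 _ hq.2)
  have hadjle : adj ≤ 1 / (x : ℝ) ^ 2 := by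
    have h1 : ∀ q ∈ I, 1 / ((M * (q.1 * q.2) : ℕ) : ℝ) ≤ 1 / (M * (x : ℝ) ^ 2) := by
      intro q hq
      apply one_div_le_one_div_of_le (by positivity)
      push_cast
      apply mul_le_mul_of_nonneg_left _ hM0.le
      rw [sq]
      exact_mod_cast hpairlo q (hIsub hq)
    have hIc : (I.card : ℝ) ≤ M := by
      have := card_le_card hI
      have : I.card ≤ M := by omega
      exact_mod_cast this
    calc adj ≤ ∑ q ∈ I, 1 / (M * (x : ℝ) ^ 2) := sum_le_sum h1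
      _ = I.card * (1 / (M * (x : ℝ) ^ 2)) := by rw [sum_const, nsmul_eq_mul]
      _ ≤ M * (1 / (M * (x : ℝ) ^ 2)) := mul_le_mul_of_nonneg_right hIc (by positivity)
      _ = 1 / (x : ℝ) ^ 2 := by field_simp
  set T := (k : ℝ) / (M * R) with hT
  have hadjeq : T - adj = (k' : ℝ) / R := by
    have e1 : adj = (∑ q ∈ I, ((R / (q.1 * q.2) : ℕ) : ℝ)) / (M * R) := by
      rw [hadj, sum_div]
      apply sum_congr rfl
      intro q hq
      have hd := hpairR q (hIsub hq)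
      have h0 : ((q.1 * q.2 : ℕ) : ℝ) ≠ 0 := by
        have : q.1 * q.2 ≠ 0 := by
          have := hpairlo q (hIsub hq)
          have : 0 < x * x := by positivity
          omega
        exact_mod_cast this
      rw [Nat.cast_div hd h0]
      push_cast at h0 ⊢
      field_simp
    have e2 : (k : ℝ) - ∑ q ∈ I, ((R / (q.1 * q.2) : ℕ) : ℝ) = M * k' := by
      have := congrArg (fun z : ℤ => (z : ℝ)) hk'
      simp only [Int.cast_sub, Int.cast_sum, Int.cast_natCast, Int.cast_mul] at this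
      exact this
    rw [hT, e1, ← sub_div, e2]
    field_simp
  -- greedy part
  have hTlo : ε / 32 ≤ T := hlo
  have hThi : T ≤ ε := hhi
  have hε0 : 0 ≤ ε := sum_nonneg fun _ _ => by positivity
  have hσ0 : 0 ≤ σ := sum_nonneg fun _ _ => by positivity
  obtain ⟨t, htQ, ht1, ht2⟩ := greedy Q (fun p => 1 / (p : ℝ)) (1 / x) (by positivity) (fun _ _ => by positivity)
    (fun p hp => one_div_le_one_div_of_le hx0 (by exact_mod_cast hB.Q_lo hp)) (T - adj - σ / 4)
    (by linarith) (by linarith)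
  have hRp : ∀ p ∈ Q, p ∣ R := fun p hp => dvd_prod_of_mem (fun p => p) hp
  have hteq : T - adj - ∑ p ∈ t, 1 / (p : ℝ) = ((k' - ∑ p ∈ t, ((R / p : ℕ) : ℤ) : ℤ) : ℝ) / R := by
    rw [hadjeq]
    have e1 : ∑ p ∈ t, 1 / (p : ℝ) = (∑ p ∈ t, ((R / p : ℕ) : ℝ)) / R := by
      rw [sum_div]
      apply sum_congr rfl
      intro p hp
      have h0 : (p : ℝ) ≠ 0 := by exact_mod_cast (hB.Q_prime (htQ hp)).ne_zero
      rw [Nat.cast_div (hRp p (htQ hp)) h0]
      field_simp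
    rw [e1, Int.cast_sub, Int.cast_sum, ← sub_div]
    simp only [Int.cast_natCast]
  obtain ⟨S, hSE, hSsum⟩ := corr hB (k' - ∑ p ∈ t, ((R / p : ℕ) : ℤ)) (by
      change σ / 4 ≤ _
      rw [← hteq]
      linarith) (by
      change _ ≤ 3 * σ / 4
      rw [← hteq]
      linarith)
  -- assemble
  have hD1inj : Set.InjOn (fun q : ℕ × ℕ => M * (q.1 * q.2)) (I : Set (ℕ × ℕ)) := by
    apply (pair_inj hB M hM).mono
    intro q hq
    have := hIsub hq
    rw [mem_product] at this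
    exact this
  have hD3inj : Set.InjOn Nn (S : Set (Fin 8 → ℕ)) := (Nn_inj hB).mono (by exact_mod_cast hSE)
  have hd12 : Disjoint (I.image (fun q : ℕ × ℕ => M * (q.1 * q.2))) t := by
    rw [Finset.disjoint_left]
    intro d hd hdt
    rw [mem_image] at hd
    obtain ⟨q, hq, rfl⟩ := hd
    have h1 := hB.Q_hi (htQ hdt)
    have h2 := hpairlo q (hIsub hq)
    have h3 : q.1 * q.2 ≤ M * (q.1 * q.2) := Nat.le_mul_of_pos_left _ hM
    have h4 : 2 * x ≤ x * x := by
      have : 2 ≤ x := by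
        have : (2 : ℝ) ≤ x := by linarith
        exact_mod_cast this
      exact Nat.mul_le_mul_right x this
    omega
  have hd123 : Disjoint (I.image (fun q : ℕ × ℕ => M * (q.1 * q.2)) ∪ t) (S.image Nn) := by
    rw [Finset.disjoint_left]
    intro d hd hd3
    rw [mem_image] at hd3
    obtain ⟨a, ha, hda⟩ := hd3
    rw [mem_union] at hd
    rcases hd with hd | hd
    · rw [mem_image] at hd
      obtain ⟨q, hq, hqd⟩ := hd
      have hMR : M ∣ R := by
        have h1 := hNR a (hSE ha)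
        rw [hda, ← hqd] at h1
        exact dvd_trans (Dvd.intro _ rfl) h1
      have hM1 : M = 1 := Nat.eq_one_of_dvd_coprimes hcop hMR dvd_rfl
      have hIe : I = ∅ := by
        have := card_le_card hI
        rw [hI0c, hM1] at this
        exact card_eq_zero.1 (by omega)
      rw [hIe] at hq
      simp at hq
    · have h1 := hB.Q_hi (htQ hd)
      have h2 := hB.Nn_lo (hSE ha)
      rw [hda] at h2
      have h3 : (d : ℝ) < 2 * x := by exact_mod_cast h1
      have h4 : (2 : ℝ) * x ≤ x ^ 8 := by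
        have h5 : (2 : ℝ) ≤ x ^ 7 := by
          calc (2 : ℝ) ≤ x := by linarith
            _ = x ^ 1 := by ring
            _ ≤ x ^ 7 := pow_le_pow_right₀ (by linarith) (by norm_num)
        calc (2 : ℝ) * x ≤ x ^ 7 * x := mul_le_mul_of_nonneg_right h5 hx0.le
          _ = x ^ 8 := by ring
      linarith
  refine ⟨I.image (fun q : ℕ × ℕ => M * (q.1 * q.2)) ∪ t ∪ S.image Nn, ?_, ?_⟩
  · intro d hd
    rw [mem_union, mem_union] at hd
    rcases hd with (hd | hd) | hd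
    · rw [mem_image] at hd
      obtain ⟨q, hq, rfl⟩ := hd
      have hqm := hIsub hq
      refine ⟨mul_dvd_mul_left M (hpairR q hqm), q.1, hPQ 0 (mem_product.1 hqm).1, ?_⟩
      exact Dvd.dvd.mul_left (Dvd.intro _ rfl) M
    · exact ⟨(hRp d (htQ hd)).mul_left M, d, htQ hd, dvd_rfl⟩
    · rw [mem_image] at hd
      obtain ⟨a, ha, rfl⟩ := hd
      refine ⟨(hNR a (hSE ha)).mul_left M, a 0, hPQ 0 (Fintype.mem_piFinset.1 (hSE ha) 0), ?_⟩
      exact dvd_prod_of_mem a (mem_univ 0)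
  · rw [sum_union hd123, sum_union hd12, sum_image hD1inj, sum_image hD3inj, hSsum]
    have e1 : ∑ q ∈ I, 1 / (((fun q : ℕ × ℕ => M * (q.1 * q.2)) q : ℕ) : ℝ) = adj := rfl
    rw [← hteq]
    change adj + ∑ p ∈ t, 1 / (p : ℝ) + (T - adj - ∑ p ∈ t, 1 / (p : ℝ)) = T
    ring

end

end Pool.Agent.Q41.W
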