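import Pool.Agent.Q41.W.Ladder

set_option autoImplicit false

namespace Pool.Agent.Q41.W

open Finset

variable {i0 : ℕ} {Q : ℕ → Finset ℕ}

lemma exists_near (N : ℝ) (hN : 0 < N) (z : ℝ) : ∃ m : ℤ, |(m : ℝ) / N - z| ≤ 1 / (2 * N) := by
  refine ⟨round (z * N), ?_⟩
  have h := abs_sub_round (z * N)
  have e : (round (z * N) : ℝ) / N - z = -((z * N - round (z * N)) / N) := by field_simp; ring
  rw [e, abs_neg, abs_div, abs_of_pos hN]
  calc |z * N - round (z * N)| / N ≤ (1 / 2) / N := div_le_div_of_nonneg_right h hN.le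
    _ = 1 / (2 * N) := by field_simp

/-- **Ladder theorem**: if the reciprocals of the primes in the blocks have a large sum then `1` is a sum of distinct
unit fractions whose denominators `> 1` divide the product of these primes. -/
theorem ladder (hL : Lad i0 Q) (hbig : ∃ i, 3 < Sb Q i) : ∃ i, Rep (Nb Q i) 1 := by
  by_contra H
  push Not at H
  have hi0 := hL.cond i0 le_rfl
  have hpow : ∀ i : ℕ, (0 : ℝ) < (1 / 2) ^ i := fun i => by positivity
  have hcc : ∀ i, i0 ≤ i → 0 ≤ 2 * ((1 / 2 : ℝ) ^ i0 - (1 / 2) ^ i) := by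
    intro i hi
    have := pow_le_pow_of_le_one (show (0 : ℝ) ≤ 1 / 2 by norm_num) (by norm_num) hi
    linarith
  have key : ∀ i, i0 ≤ i → Sb Q i ≤ 8 → ∀ w : ℝ, Sb Q i / 8 ≤ w → w ≤ Sb Q i / 2 →
      ∃ m : ℤ, |(m : ℝ) / Nb Q i - w| ≤ 2 * ((1 / 2 : ℝ) ^ i0 - (1 / 2) ^ i) - max 0 (Sb Q i - 2) / 16 ∧ Good Q i m := by
    intro i hi
    induction i, hi using Nat.le_induction with
    | base =>
      intro _ w hw1 hw2
      have hS : Sb Q i0 = 0 := by
        unfold Sb eb
        apply sum_eq_zero
        intro j hj
        rw [hL.start j (mem_range.1 hj)]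
        simp
      have hN : Nb Q i0 = 1 := by
        unfold Nb Rb
        apply prod_eq_one
        intro j hj
        rw [hL.start j (mem_range.1 hj)]
        simp
      rw [hS] at hw1 hw2 ⊢
      have hw : w = 0 := by linarith
      refine ⟨0, ?_, ?_⟩
      · rw [hw]; simp
      · intro Y hY
        rw [hN] at hY ⊢
        simp only [Int.cast_zero, sub_zero, Nat.cast_one, div_one] at hY ⊢
        have h1 : (1 : ℝ) ≤ (i0 : ℝ) ^ 2 := one_le_pow₀ (by exact_mod_cast hi0.pos)
        have h2 : 1 / (128 * (i0 : ℝ) ^ 2) < 1 := by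
          rw [div_lt_one (by positivity)]
          linarith
        have h3 : |(Y : ℝ)| < 1 := lt_of_le_of_lt hY h2
        have h4 : |Y| < 1 := by exact_mod_cast h3
        have h5 : Y = 0 := Int.abs_lt_one_iff.1 h4
        rw [h5]
        exact ⟨∅, by simp, by simp⟩
    | succ i hi ih =>
      intro hS8 w' hw1 hw2
      have hici := hL.cond i hi
      have hi1 : (1 : ℝ) ≤ i := by exact_mod_cast hici.pos
      have hpi := hpow i
      have hps : (1 / 2 : ℝ) ^ (i + 1) = (1 / 2) ^ i / 2 := by rw [pow_succ]; ring
      rcases (Q i).eq_empty_or_nonempty with hemp | hne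
      · -- empty block
        have he : eb Q i = 0 := by unfold eb; rw [hemp]; simp
        have hR : Rb Q i = 1 := by unfold Rb; rw [hemp]; simp
        have hSs : Sb Q (i + 1) = Sb Q i := by rw [Sb_succ, he, add_zero]
        have hNs : Nb Q (i + 1) = Nb Q i := by rw [Nb_succ, hR, mul_one]
        rw [hSs] at hS8 hw1 hw2 ⊢
        obtain ⟨m, hm1, hm2⟩ := ih hS8 w' hw1 hw2
        rw [hNs]
        refine ⟨m, ?_, ?_⟩
        · rw [hps]
          linarith
        · intro Y hY
          rw [hNs] at hY ⊢
          apply hm2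
          refine hY.trans ?_
          apply one_div_le_one_div_of_le (by positivity)
          push_cast
          nlinarith
      · set ε := eb Q i with hε
        have hεlo := hL.eb_lo hne
        have hεhi := hL.eb_le_one i
        have hi2 : (1 : ℝ) ≤ (i : ℝ) ^ 2 := one_le_pow₀ hi1
        have hε0 : 0 < ε := lt_of_lt_of_le (by positivity) hεlo
        have hS0 := Sb_nonneg (Q := Q) i
        have hSs : Sb Q (i + 1) = Sb Q i + ε := Sb_succ i
        rw [hSs] at hS8 hw1 hw2 ⊢
        set S := Sb Q i with hSdef
        have hS' : 0 < S + ε := by linarith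
        -- small quantities
        have hsmall : (1 / 2 : ℝ) ^ i ≤ ε / 1000 := by
          have h1 : 1 / (2 * (i : ℝ) ^ 2) / 1000 ≤ ε / 1000 := by linarith
          refine le_trans ?_ h1
          rw [div_pow, one_pow, div_div]
          apply one_div_le_one_div_of_le (by positivity)
          have := hici.c3
          linarith
        have hNbig : 1 / (2 * (Nb Q (i + 1) : ℝ)) ≤ (1 / 2) ^ i / 2 := by
          have h1 : (2 : ℝ) ^ i ≤ Nb Q (i + 1) := by
            have h2 : 2 ^ i ≤ Nb Q (i + 1) := by
              rw [Nb_succ]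
              exact (hL.Rb_ge hne).trans (Nat.le_mul_of_pos_left _ (hL.Nb_pos i))
            exact_mod_cast h2
          have h3 : (1 / 2 : ℝ) ^ i / 2 = 1 / (2 * 2 ^ i) := by rw [div_pow, one_pow]; field_simp
          rw [h3]
          apply one_div_le_one_div_of_le (by positivity)
          linarith
        have hNs0 : (0 : ℝ) < Nb Q (i + 1) := by exact_mod_cast hL.Nb_pos (i + 1)
        have hN0 : (0 : ℝ) < Nb Q i := by exact_mod_cast hL.Nb_pos i
        set ρ := 2 * ((1 / 2 : ℝ) ^ i0 - (1 / 2) ^ i) - max 0 (S - 2) / 16 with hρ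
        have hc0 := hcc i hi
        -- the induction hypothesis at the rescaled point
        have hpt : ∀ v : ℝ, (S + ε) / 8 ≤ v → v ≤ (S + ε) / 2 → ∃ m : ℤ, Good Q i m ∧
            ε / 8 - ρ ≤ v - m / Nb Q i ∧ v - m / Nb Q i ≤ ε / 2 + ρ := by
          intro v hv1 hv2
          have hr1 : 1 / 8 ≤ v / (S + ε) := by rw [le_div_iff₀ hS']; linarith
          have hr2 : v / (S + ε) ≤ 1 / 2 := by rw [div_le_iff₀ hS']; linarith
          have hv : v = v / (S + ε) * S + v / (S + ε) * ε := by field_simp
          obtain ⟨m, hm1, hm2⟩ := ih (by linarith) (v / (S + ε) * S) (by nlinarith) (by nlinarith)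
          rw [abs_le] at hm1
          have h1 : 1 / 8 * ε ≤ v / (S + ε) * ε := mul_le_mul_of_nonneg_right hr1 hε0.le
          have h2 : v / (S + ε) * ε ≤ 1 / 2 * ε := mul_le_mul_of_nonneg_right hr2 hε0.le
          refine ⟨m, hm2, ?_, ?_⟩ <;> linarith [hm1.1, hm1.2]
        by_cases hρε : ρ < ε / 16
        · -- tolerance is small
          by_cases hS2 : S + ε ≤ 2
          · obtain ⟨m, hGm, hm1, hm2⟩ := hpt w' hw1 hw2
            obtain ⟨m', hm'⟩ := exists_near (Nb Q (i + 1)) hNs0 w'
            have hm'' := hm'.trans hNbig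
            have hab := abs_le.1 hm''
            refine ⟨m', ?_, ?_⟩
            · have hmax : max 0 (S + ε - 2) = 0 := max_eq_left (by linarith)
              rw [hmax, hps]
              refine hm''.trans ?_
              linarith
            · apply step hL i hne m m' hGm
              · change ε / 17 ≤ _; linarith [hab.1]
              · change _ ≤ 19 / 20 * ε; linarith [hab.2]
          · exfalso
            rw [not_le] at hS2
            obtain ⟨m, hGm, hm1, hm2⟩ := hpt 1 (by linarith) (by linarith)
            have hone : ((Nb Q (i + 1) : ℤ) : ℝ) / Nb Q (i + 1) = 1 := by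
              rw [Int.cast_natCast]; field_simp
            have hgood : Good Q (i + 1) (Nb Q (i + 1) : ℤ) := by
              apply step hL i hne m _ hGm
              · rw [hone]; change ε / 17 ≤ _; linarith
              · rw [hone]; change _ ≤ 19 / 20 * ε; linarith
            have hrep := hgood (Nb Q (i + 1) : ℤ) (by
              rw [sub_self, abs_zero]
              positivity)
            rw [hone] at hrep
            exact H (i + 1) hrep
        · rw [not_lt] at hρε
          obtain ⟨m, hGm, hm1, hm2⟩ := hpt w' hw1 hw2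
          -- clamp
          obtain ⟨c, hc1, hc2, hc3⟩ : ∃ c, ε / 16 ≤ c ∧ c ≤ 9 * ε / 16 ∧
              |(m : ℝ) / Nb Q i + c - w'| ≤ ρ - ε / 16 := by
            rcases le_total (w' - m / Nb Q i) (ε / 16) with h | h
            · refine ⟨ε / 16, le_rfl, by linarith, ?_⟩
              rw [abs_le]; constructor <;> linarith
            · rcases le_total (w' - m / Nb Q i) (9 * ε / 16) with h' | h'
              · refine ⟨w' - m / Nb Q i, h, h', ?_⟩
                have : (m : ℝ) / Nb Q i + (w' - m / Nb Q i) - w' = 0 := by ring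
                rw [this, abs_zero]; linarith
              · refine ⟨9 * ε / 16, by linarith, le_rfl, ?_⟩
                rw [abs_le]; constructor <;> linarith
          obtain ⟨m', hm'⟩ := exists_near (Nb Q (i + 1)) hNs0 ((m : ℝ) / Nb Q i + c)
          have hm'' := hm'.trans hNbig
          have hab := abs_le.1 hm''
          have hcab := abs_le.1 hc3
          refine ⟨m', ?_, ?_⟩
          · have hmax : max 0 (S + ε - 2) ≤ max 0 (S - 2) + ε := by
              apply max_le
              · have := le_max_left 0 (S - 2); linarith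
              · have := le_max_right 0 (S - 2); linarith
            rw [hps, abs_le]
            constructor <;> linarith [hab.1, hab.2, hcab.1, hcab.2]
          · apply step hL i hne m m' hGm
            · change ε / 17 ≤ _; linarith [hab.1]
            · change _ ≤ 19 / 20 * ε; linarith [hab.2]
  -- conclusion
  classical
  have hex := Nat.find_spec hbig
  set i1 := Nat.find hbig with hi1
  have hi1pos : i1 ≠ 0 := by
    intro h
    rw [h] at hex
    simp [Sb] at hex
    linarith
  obtain ⟨i2, hi2⟩ := Nat.exists_eq_succ_of_ne_zero hi1pos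
  have hprev : Sb Q i2 ≤ 3 := by
    have := Nat.find_min hbig (m := i2) (by omega)
    exact not_lt.1 this
  have hS4 : Sb Q i1 ≤ 4 := by
    rw [hi2, Nat.succ_eq_add_one, Sb_succ]
    have := hL.eb_le_one i2
    linarith
  have hge : i0 ≤ i1 := by
    by_contra hlt
    rw [not_le] at hlt
    have : Sb Q i1 = 0 := by
      unfold Sb eb
      apply sum_eq_zero
      intro j hj
      rw [hL.start j ((mem_range.1 hj).trans hlt)]
      simp
    linarith
  obtain ⟨m, hm, _⟩ := key i1 hge (by linarith) (Sb Q i1 / 2) (by linarith) le_rfl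
  have h1 : 0 ≤ 2 * ((1 / 2 : ℝ) ^ i0 - (1 / 2) ^ i1) - max 0 (Sb Q i1 - 2) / 16 := (abs_nonneg _).trans hm
  have h2 : Sb Q i1 - 2 ≤ max 0 (Sb Q i1 - 2) := le_max_right _ _
  have h3 : (1 / 2 : ℝ) ^ i0 ≤ 1 / 2000 := by
    have h4 := hi0.c3
    have h5 : (1 : ℝ) ≤ (i0 : ℝ) ^ 2 := one_le_pow₀ (by exact_mod_cast hi0.pos)
    rw [div_pow, one_pow]
    apply one_div_le_one_div_of_le (by norm_num)
    linarith
  have h6 := hpow i1
  linarith

end Pool.Agent.Q41.W
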