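import Pool.Agent.Q41.W.Star

set_option autoImplicit false

namespace Pool.Agent.Q41.W

open Finset Complex

variable {x : ℕ} {Λ : ℝ} {P : Fin 8 → Finset ℕ}

/-- all the primes -/
def Qs (P : Fin 8 → Finset ℕ) : Finset ℕ := univ.biUnion P

lemma Blk.ne_of_ne (hB : Blk x Λ P) {a : Fin 8 → ℕ} (ha : a ∈ Fintype.piFinset P) {i j : Fin 8} (hij : i ≠ j) :
    a i ≠ a j := by
  intro h
  have h1 := Fintype.mem_piFinset.1 ha i
  have h2 := Fintype.mem_piFinset.1 ha j
  rw [← h] at h2
  exact Finset.disjoint_left.1 (hB.disj i j hij) h1 h2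

lemma Blk.prod_dvd (hB : Blk x Λ P) {a : Fin 8 → ℕ} (ha : a ∈ Fintype.piFinset P) (s : Finset (Fin 8)) (z : ℤ)
    (h : ∀ j ∈ s, (a j : ℤ) ∣ z) : ((∏ j ∈ s, a j : ℕ) : ℤ) ∣ z := by
  push_cast
  apply Finset.prod_dvd_of_coprime
  · intro i _ j _ hij
    change IsCoprime (a i : ℤ) (a j : ℤ)
    rw [Nat.isCoprime_iff_coprime, Nat.coprime_primes (hB.mem_prime ha i) (hB.mem_prime ha j)]
    exact hB.ne_of_ne ha hij
  · exact h

lemma Blk.Q_prime (hB : Blk x Λ P) {p : ℕ} (hp : p ∈ Qs P) : p.Prime := by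
  unfold Qs at hp
  rw [mem_biUnion] at hp
  obtain ⟨j, _, hj⟩ := hp
  exact hB.prime j p hj

lemma Blk.Q_lo (hB : Blk x Λ P) {p : ℕ} (hp : p ∈ Qs P) : x ≤ p := by
  unfold Qs at hp
  rw [mem_biUnion] at hp
  obtain ⟨j, _, hj⟩ := hp
  exact hB.lo j p hj

lemma Blk.Q_hi (hB : Blk x Λ P) {p : ℕ} (hp : p ∈ Qs P) : p < 2 * x := by
  unfold Qs at hp
  rw [mem_biUnion] at hp
  obtain ⟨j, _, hj⟩ := hp
  exact hB.hi j p hj

lemma Blk.Q_card (hB : Blk x Λ P) : (Qs P).card ≤ x := by
  have : Qs P ⊆ Finset.Ico x (2 * x) := fun p hp => Finset.mem_Ico.2 ⟨hB.Q_lo hp, hB.Q_hi hp⟩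
  have := Finset.card_le_card this
  rw [Nat.card_Ico] at this
  omega

/-- many factors are far from the integers when `h` is not close to `r` modulo many primes -/
theorem spread (hB : Blk x Λ P) (h r : ℤ) (hr : |r| ≤ (x : ℤ) ^ 5)
    (hbad : ∀ j, 2 * ((P j).filter (fun p : ℕ => ¬ (p : ℤ) ∣ h - r)).card ≤ (P j).card) :
    ((Qs P).filter (fun p : ℕ => ¬ (p : ℤ) ∣ h - r)).card * (x : ℝ) ^ 4 ≤
      3 / 2 * ∑ a ∈ Fintype.piFinset P, nd (h / Nn a) ^ 2 := by
  classical
  have hx := hB.x_big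
  have hΛ := hB.one
  have hbig := hB.big
  have hx0 : (0 : ℝ) < x := by linarith
  set Bd : Fin 8 → Finset ℕ := fun j => (P j).filter (fun p : ℕ => ¬ (p : ℤ) ∣ h - r) with hBd
  set G : Fin 8 → Finset ℕ := fun j => (P j).filter (fun p : ℕ => (p : ℤ) ∣ h - r) with hG
  set S := ∑ a ∈ Fintype.piFinset P, nd (h / Nn a) ^ 2 with hS
  have hrR : |(r : ℝ)| ≤ x ^ 5 := by exact_mod_cast hr
  have hGcard : ∀ j, (x : ℝ) / (2 * Λ) ≤ (G j).card := by
    intro j
    have h1 : (G j).card + (Bd j).card = (P j).card := Finset.card_filter_add_card_filter_not _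
    have h2 := hbad j
    have h3 : (P j).card ≤ 2 * (G j).card := by
      change 2 * (Bd j).card ≤ (P j).card at h2
      omega
    have h4 := hB.card j
    have h5 : ((P j).card : ℝ) ≤ 2 * (G j).card := by exact_mod_cast h3
    rw [div_le_iff₀ (by positivity)]
    rw [div_le_iff₀ (by linarith)] at h4
    nlinarith
  -- for each coordinate
  have key : ∀ j, ((Bd j).card : ℝ) * (((x : ℝ) / (2 * Λ)) ^ 7 * (1 / (4 * (x : ℝ))) ^ 2) ≤ S := by
    intro j
    set H : Fin 8 → Finset ℕ := Function.update G j (Bd j) with hH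
    have hHsub : ∀ l, H l ⊆ P l := by
      intro l
      by_cases hl : l = j
      · subst hl; simp [hH, hBd]
      · simp [hH, Function.update_of_ne hl, hG]
    have hsub : Fintype.piFinset H ⊆ Fintype.piFinset P := Fintype.piFinset_subset _ _ hHsub
    have hcard : ((Bd j).card : ℝ) * ((x : ℝ) / (2 * Λ)) ^ 7 ≤ (Fintype.piFinset H).card := by
      rw [Fintype.card_piFinset]
      have e1 : ∀ l, (H l).card = Function.update (fun l => (G l).card) j (Bd j).card l := by
        intro l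
        by_cases hl : l = j
        · subst hl; simp [hH]
        · simp [hH, Function.update_of_ne hl]
      rw [prod_congr rfl fun l _ => e1 l, Finset.prod_update_of_mem (mem_univ j)]
      push_cast
      apply mul_le_mul_of_nonneg_left _ (Nat.cast_nonneg _)
      have hc : (univ \ {j} : Finset (Fin 8)).card = 7 := by
        rw [card_sdiff_of_subset (by simp)]
        simp
      have := Finset.prod_le_prod (s := (univ \ {j} : Finset (Fin 8))) (f := fun _ => (x : ℝ) / (2 * Λ))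
        (g := fun l => ((G l).card : ℝ)) (fun _ _ => by positivity) (fun l _ => hGcard l)
      rw [prod_const, hc] at this
      exact this
    have hterm : ∀ a ∈ Fintype.piFinset H, (1 / (4 * (x : ℝ))) ^ 2 ≤ nd (h / Nn a) ^ 2 := by
      intro a haH
      have ha := hsub haH
      have hpN := hB.Nn_pos ha
      have hlo := hB.Nn_lo ha
      have haj : a j ∈ Bd j := by
        have := Fintype.mem_piFinset.1 haH j
        simpa [hH] using this
      have hal : ∀ l, l ≠ j → (a l : ℤ) ∣ h - r := by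
        intro l hl
        have := Fintype.mem_piFinset.1 haH l
        simp only [hH, Function.update_of_ne hl, hG, mem_filter] at this
        exact this.2
      set m := ∏ l ∈ univ \ {j}, a l with hm
      have hNa : Nn a = a j * m := by
        have := Finset.prod_update_of_mem (mem_univ j) a (a j)
        rw [Function.update_eq_self] at this
        exact this
      have hmd : (m : ℤ) ∣ h - r := by
        apply hB.prod_dvd ha
        intro l hl
        rw [mem_sdiff, mem_singleton] at hl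
        exact hal l hl.2
      obtain ⟨u, hu⟩ := hmd
      have hnj : ¬ ((a j : ℕ) : ℤ) ∣ u := by
        intro hd
        have : ¬ ((a j : ℕ) : ℤ) ∣ h - r := (mem_filter.1 haj).2
        apply this
        rw [hu]
        exact dvd_mul_of_dvd_right hd _
      have hp := hB.mem_prime ha j
      have hm0 : (m : ℝ) ≠ 0 := by
        have : m ≠ 0 := by
          rintro h0
          rw [h0, mul_zero] at hNa
          omega
        exact_mod_cast this
      have hp0 : ((a j : ℕ) : ℝ) ≠ 0 := by exact_mod_cast hp.ne_zero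
      have e2 : (((h - r : ℤ) : ℝ) / Nn a) = (u : ℝ) / (a j : ℕ) := by
        rw [hu, hNa]
        push_cast
        field_simp
      have h1 := nd_div_ge (a j) hp.pos u hnj
      have h2 : 1 / (2 * (x : ℝ)) ≤ 1 / ((a j : ℕ) : ℝ) := by
        apply one_div_le_one_div_of_le (by exact_mod_cast hp.pos)
        have := (hB.hi j _ (Fintype.mem_piFinset.1 ha j)).le
        exact_mod_cast this
      have h3 := nd_sub_le (((h - r : ℤ) : ℝ) / Nn a) (h / Nn a)
      have h4 : |((h - r : ℤ) : ℝ) / Nn a - h / Nn a| ≤ 1 / (4 * (x : ℝ)) := by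
        have e3 : ((h - r : ℤ) : ℝ) / Nn a - h / Nn a = - ((r : ℝ) / Nn a) := by
          push_cast
          ring
        rw [e3, abs_neg, abs_div, abs_of_pos (by exact_mod_cast hpN : (0 : ℝ) < Nn a)]
        calc |(r : ℝ)| / Nn a ≤ x ^ 5 / x ^ 8 := by
              apply div_le_div₀ (by positivity) hrR (by positivity) hlo
          _ = 1 / x ^ 3 := by field_simp
          _ ≤ 1 / (4 * (x : ℝ)) := by
              apply one_div_le_one_div_of_le (by positivity)
              nlinarith [sq_nonneg ((x : ℝ)), mul_pos hx0 hx0]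
      have h5 : 1 / (4 * (x : ℝ)) ≤ nd (h / Nn a) := by
        have h6 : 1 / (2 * (x : ℝ)) = 1 / (4 * (x : ℝ)) + 1 / (4 * (x : ℝ)) := by field_simp; norm_num
        rw [e2] at h3 h4
        linarith
      exact pow_le_pow_left₀ (by positivity) h5 2
    calc ((Bd j).card : ℝ) * (((x : ℝ) / (2 * Λ)) ^ 7 * (1 / (4 * (x : ℝ))) ^ 2)
        = ((Bd j).card : ℝ) * ((x : ℝ) / (2 * Λ)) ^ 7 * (1 / (4 * (x : ℝ))) ^ 2 := by ring
      _ ≤ (Fintype.piFinset H).card * (1 / (4 * (x : ℝ))) ^ 2 :=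
          mul_le_mul_of_nonneg_right hcard (sq_nonneg _)
      _ = ∑ a ∈ Fintype.piFinset H, (1 / (4 * (x : ℝ))) ^ 2 := by rw [sum_const, nsmul_eq_mul]
      _ ≤ ∑ a ∈ Fintype.piFinset H, nd (h / Nn a) ^ 2 := sum_le_sum hterm
      _ ≤ S := sum_le_sum_of_subset_of_nonneg hsub fun _ _ _ => sq_nonneg _
  have hsum : (∑ j, ((Bd j).card : ℝ)) * (((x : ℝ) / (2 * Λ)) ^ 7 * (1 / (4 * (x : ℝ))) ^ 2) ≤ 8 * S := by
    rw [sum_mul]
    have := Finset.sum_le_sum (s := (univ : Finset (Fin 8))) fun j _ => key j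
    simpa using this
  have hcardQ : (((Qs P).filter (fun p : ℕ => ¬ (p : ℤ) ∣ h - r)).card : ℝ) ≤ ∑ j, ((Bd j).card : ℝ) := by
    have : (Qs P).filter (fun p : ℕ => ¬ (p : ℤ) ∣ h - r) = univ.biUnion Bd := by
      unfold Qs
      rw [filter_biUnion]
    rw [this]
    exact_mod_cast card_biUnion_le
  have hconst : (x : ℝ) ^ 4 * 16 / 3 ≤ ((x : ℝ) / (2 * Λ)) ^ 7 * (1 / (4 * (x : ℝ))) ^ 2 := by
    have e : ((x : ℝ) / (2 * Λ)) ^ 7 * (1 / (4 * (x : ℝ))) ^ 2 = x ^ 4 * (x / (2048 * Λ ^ 7)) := by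
      field_simp
      norm_num
    rw [e, mul_div_assoc]
    apply mul_le_mul_of_nonneg_left _ (by positivity)
    rw [le_div_iff₀ (by positivity)]
    have h7 : Λ ^ 7 ≤ Λ ^ 9 := pow_le_pow_right₀ hΛ (by norm_num)
    have h8 : 0 < Λ ^ 9 := by positivity
    linarith
  have hB0 : (0 : ℝ) ≤ ((Qs P).filter (fun p : ℕ => ¬ (p : ℤ) ∣ h - r)).card := Nat.cast_nonneg _
  have h9 : (((Qs P).filter (fun p : ℕ => ¬ (p : ℤ) ∣ h - r)).card : ℝ) * ((x : ℝ) ^ 4 * 16 / 3) ≤ 8 * S := by
    refine le_trans (mul_le_mul hcardQ hconst (by positivity) (hB0.trans hcardQ)) hsum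
  linarith

end Pool.Agent.Q41.W
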