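import Pool.Agent.Q41.W.Fourier

set_option autoImplicit false

namespace Pool.Agent.Q41.W

open Finset Complex

/-- product of the eight coordinates -/
def Nn (a : Fin 8 → ℕ) : ℕ := ∏ j, a j

/-- Data: eight disjoint sets of primes in `[x, 2x)`, each with at least `x / Λ` elements -/
structure Blk (x : ℕ) (Λ : ℝ) (P : Fin 8 → Finset ℕ) : Prop where
  one : 1 ≤ Λ
  log : Real.log (2 * x) ≤ Λ
  big : 1179648 * Λ ^ 9 ≤ x
  prime : ∀ j, ∀ p ∈ P j, p.Prime
  lo : ∀ j, ∀ p ∈ P j, x ≤ p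
  hi : ∀ j, ∀ p ∈ P j, p < 2 * x
  disj : ∀ i j, i ≠ j → Disjoint (P i) (P j)
  card : ∀ j, x / Λ ≤ ((P j).card : ℝ)

section
variable {x : ℕ} {Λ : ℝ} {P : Fin 8 → Finset ℕ}

lemma Blk.x_big (hB : Blk x Λ P) : (1179648 : ℝ) ≤ x := by
  have h1 := hB.one
  have h2 := hB.big
  have : (1 : ℝ) ≤ Λ ^ 9 := one_le_pow₀ h1
  linarith

lemma Blk.mem_prime (hB : Blk x Λ P) {a : Fin 8 → ℕ} (ha : a ∈ Fintype.piFinset P) (j : Fin 8) : (a j).Prime :=
  hB.prime j _ (Fintype.mem_piFinset.1 ha j)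

lemma Blk.Nn_lo (hB : Blk x Λ P) {a : Fin 8 → ℕ} (ha : a ∈ Fintype.piFinset P) : (x : ℝ) ^ 8 ≤ Nn a := by
  have : x ^ 8 ≤ Nn a := by
    unfold Nn
    have := Finset.prod_le_prod (s := (univ : Finset (Fin 8))) (f := fun _ => x) (g := a) (fun _ _ => Nat.zero_le _)
      (fun j _ => hB.lo j _ (Fintype.mem_piFinset.1 ha j))
    simpa using this
  exact_mod_cast this

lemma Blk.Nn_hi (hB : Blk x Λ P) {a : Fin 8 → ℕ} (ha : a ∈ Fintype.piFinset P) : (Nn a : ℝ) ≤ 256 * x ^ 8 := by
  have : Nn a ≤ 256 * x ^ 8 := by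
    unfold Nn
    have := Finset.prod_le_prod (s := (univ : Finset (Fin 8))) (f := a) (g := fun _ => 2 * x) (fun _ _ => Nat.zero_le _)
      (fun j _ => (hB.hi j _ (Fintype.mem_piFinset.1 ha j)).le)
    refine this.trans (le_of_eq ?_)
    simp
    ring
  exact_mod_cast this

lemma Blk.Nn_pos (hB : Blk x Λ P) {a : Fin 8 → ℕ} (ha : a ∈ Fintype.piFinset P) : 0 < Nn a :=
  Finset.prod_pos fun j _ => (hB.mem_prime ha j).pos

lemma Blk.card_lo (hB : Blk x Λ P) : (x : ℝ) ^ 8 / Λ ^ 8 ≤ ((Fintype.piFinset P).card : ℝ) := by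
  rw [Fintype.card_piFinset]
  push_cast
  have := Finset.prod_le_prod (s := (univ : Finset (Fin 8))) (f := fun _ => (x : ℝ) / Λ) (g := fun j => ((P j).card : ℝ))
    (fun _ _ => div_nonneg (Nat.cast_nonneg _) (by linarith [hB.one])) (fun j _ => hB.card j)
  refine le_trans (le_of_eq ?_) this
  simp

lemma card_le_x (hB : Blk x Λ P) (j : Fin 8) : (P j).card ≤ x := by
  have : P j ⊆ Finset.Ico x (2 * x) := fun p hp => Finset.mem_Ico.2 ⟨hB.lo j p hp, hB.hi j p hp⟩
  have := Finset.card_le_card this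
  rw [Nat.card_Ico] at this
  omega

lemma Blk.nonempty (hB : Blk x Λ P) : (Fintype.piFinset P).Nonempty := by
  rw [← Finset.card_pos]
  have h1 := hB.card_lo
  have h2 : (0 : ℝ) < (x : ℝ) ^ 8 / Λ ^ 8 := by
    have := hB.x_big
    have := hB.one
    positivity
  exact_mod_cast h2.trans_le h1

end

lemma sum_update (P : Fin 8 → Finset ℕ) (W : (Fin 8 → ℕ) → ℝ) (j : Fin 8) :
    ∑ a ∈ Fintype.piFinset P, ∑ p ∈ P j, W (Function.update a j p) =
      (P j).card * ∑ a ∈ Fintype.piFinset P, W a := by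
  classical
  rw [← Finset.sum_product' (Fintype.piFinset P) (P j) (fun a p => W (Function.update a j p))]
  have : ((P j).card : ℝ) * ∑ a ∈ Fintype.piFinset P, W a = ∑ q ∈ Fintype.piFinset P ×ˢ P j, W q.1 := by
    rw [Finset.sum_product]
    simp only [sum_const, nsmul_eq_mul]
    rw [mul_sum]
  rw [this]
  refine Finset.sum_nbij' (fun q => (Function.update q.1 j q.2, q.1 j)) (fun q => (Function.update q.1 j q.2, q.1 j)) ?_ ?_ ?_ ?_ ?_
  · rintro ⟨a, p⟩ h
    rw [mem_product] at h ⊢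
    obtain ⟨h1, h2⟩ := h
    rw [Fintype.mem_piFinset] at h1
    refine ⟨?_, h1 j⟩
    rw [Fintype.mem_piFinset]
    intro l
    by_cases hl : l = j
    · subst hl; simpa using h2
    · simpa [Function.update_of_ne hl] using h1 l
  · rintro ⟨a, p⟩ h
    rw [mem_product] at h ⊢
    obtain ⟨h1, h2⟩ := h
    rw [Fintype.mem_piFinset] at h1
    refine ⟨?_, h1 j⟩
    rw [Fintype.mem_piFinset]
    intro l
    by_cases hl : l = j
    · subst hl; simpa using h2
    · simpa [Function.update_of_ne hl] using h1 l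
  · rintro ⟨a, p⟩ _
    simp
  · rintro ⟨a, p⟩ _
    simp
  · rintro ⟨a, p⟩ _
    rfl

lemma star_exists (P : Fin 8 → Finset ℕ) (W : (Fin 8 → ℕ) → ℝ) (hW : ∀ a, 0 ≤ W a)
    (hne : (Fintype.piFinset P).Nonempty) :
    ∃ a ∈ Fintype.piFinset P, W a ≤ 9 * (∑ a ∈ Fintype.piFinset P, W a) / (Fintype.piFinset P).card ∧
      ∀ j, ∑ p ∈ P j, W (Function.update a j p) ≤
        9 * (∑ a ∈ Fintype.piFinset P, W a) / (Fintype.piFinset P).card * (P j).card := by
  classical
  set S := ∑ a ∈ Fintype.piFinset P, W a with hS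
  have hPj : ∀ j, 0 < (P j).card := by
    intro j
    obtain ⟨a, ha⟩ := hne
    exact Finset.card_pos.2 ⟨a j, Fintype.mem_piFinset.1 ha j⟩
  have hcard : (0 : ℝ) < (Fintype.piFinset P).card := by exact_mod_cast Finset.card_pos.2 hne
  have h1 : ∑ a ∈ Fintype.piFinset P, (W a + ∑ j, (∑ p ∈ P j, W (Function.update a j p)) / (P j).card) =
      9 * S := by
    rw [sum_add_distrib, sum_comm]
    have : ∀ j, ∑ a ∈ Fintype.piFinset P, (∑ p ∈ P j, W (Function.update a j p)) / (P j).card = S := by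
      intro j
      rw [← sum_div, sum_update, mul_div_assoc, ← hS]
      have : ((P j).card : ℝ) ≠ 0 := by exact_mod_cast (hPj j).ne'
      field_simp
    rw [sum_congr rfl fun j _ => this j, sum_const, card_univ, Fintype.card_fin, ← hS]
    simp
    ring
  obtain ⟨a, ha, hle⟩ := Finset.exists_le_of_sum_le (s := Fintype.piFinset P) hne
    (f := fun a => W a + ∑ j, (∑ p ∈ P j, W (Function.update a j p)) / (P j).card)
    (g := fun _ => 9 * S / (Fintype.piFinset P).card) (by
      rw [h1, sum_const, nsmul_eq_mul]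
      field_simp
      exact le_refl _)
  have hterm : ∀ j, 0 ≤ (∑ p ∈ P j, W (Function.update a j p)) / (P j).card := fun j =>
    div_nonneg (sum_nonneg fun _ _ => hW _) (Nat.cast_nonneg _)
  refine ⟨a, ha, ?_, fun j => ?_⟩
  · have := Finset.sum_nonneg (s := (univ : Finset (Fin 8))) fun j _ => hterm j
    have hle' : W a + ∑ j, (∑ p ∈ P j, W (Function.update a j p)) / (P j).card ≤
      9 * S / (Fintype.piFinset P).card := hle
    linarith
  · have h2 := Finset.single_le_sum (s := (univ : Finset (Fin 8))) (fun j _ => hterm j) (mem_univ j)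
    have h3 := hW a
    have hle' : W a + ∑ j, (∑ p ∈ P j, W (Function.update a j p)) / (P j).card ≤
      9 * S / (Fintype.piFinset P).card := hle
    have h4 : (∑ p ∈ P j, W (Function.update a j p)) / (P j).card ≤ 9 * S / (Fintype.piFinset P).card := by
      linarith
    rwa [div_le_iff₀ (by exact_mod_cast hPj j)] at h4

/-- residue of least absolute value -/
lemma exists_residue (h : ℤ) (N : ℕ) (hN : 0 < N) : ∃ r : ℤ, (N : ℤ) ∣ h - r ∧ |(r : ℝ)| = N * nd (h / N) := by
  have hN' : (0 : ℝ) < N := by exact_mod_cast hN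
  refine ⟨h - N * round ((h : ℝ) / N), ⟨round ((h : ℝ) / N), by ring⟩, ?_⟩
  unfold nd
  have : ((h - N * round ((h : ℝ) / N) : ℤ) : ℝ) = N * ((h : ℝ) / N - round ((h : ℝ) / N)) := by
    push_cast
    field_simp
  rw [this, abs_mul, abs_of_pos hN']

theorem star {x : ℕ} {Λ : ℝ} {P : Fin 8 → Finset ℕ} (hB : Blk x Λ P) (h : ℤ)
    (hS : ∑ a ∈ Fintype.piFinset P, nd (h / Nn a) ^ 2 ≤ 2 * x * Λ) :
    ∃ r : ℤ, |r| ≤ (x : ℤ) ^ 5 ∧ ∀ j, 2 * ((P j).filter (fun p : ℕ => ¬ (p : ℤ) ∣ h - r)).card ≤ (P j).card := by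
  classical
  obtain ⟨a, ha, h1, h2⟩ := star_exists P (fun a => nd (h / Nn a) ^ 2) (fun a => sq_nonneg _) hB.nonempty
  have hx := hB.x_big
  have hΛ := hB.one
  have hbig := hB.big
  set S := ∑ a ∈ Fintype.piFinset P, nd (h / Nn a) ^ 2 with hSdef
  set β := 9 * S / (Fintype.piFinset P).card with hβdef
  have hcard := hB.card_lo
  have hx0 : (0 : ℝ) < x := by linarith
  have hS0 : 0 ≤ S := sum_nonneg fun _ _ => sq_nonneg _
  have hβ : β ≤ 18 * Λ ^ 9 / x ^ 7 := by
    rw [hβdef]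
    have hc0 : (0 : ℝ) < (x : ℝ) ^ 8 / Λ ^ 8 := by positivity
    calc 9 * S / (Fintype.piFinset P).card ≤ 9 * S / ((x : ℝ) ^ 8 / Λ ^ 8) := by
          apply div_le_div_of_nonneg_left (by positivity) hc0 hcard
      _ ≤ 9 * (2 * x * Λ) / ((x : ℝ) ^ 8 / Λ ^ 8) := by
          apply div_le_div_of_nonneg_right _ hc0.le
          linarith
      _ = 18 * Λ ^ 9 / x ^ 7 := by
          field_simp
          ring
  have hβ2 : β * x ^ 6 ≤ 1 / 65536 := by
    have : 18 * Λ ^ 9 ≤ x / 65536 := by linarith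
    calc β * x ^ 6 ≤ 18 * Λ ^ 9 / x ^ 7 * x ^ 6 := mul_le_mul_of_nonneg_right hβ (by positivity)
      _ ≤ (x / 65536) / x ^ 7 * x ^ 6 := by
          apply mul_le_mul_of_nonneg_right _ (by positivity)
          exact div_le_div_of_nonneg_right this (by positivity)
      _ = 1 / 65536 := by field_simp
  obtain ⟨r, hr1, hr2⟩ := exists_residue h (Nn a) (hB.Nn_pos ha)
  have hNlo := hB.Nn_lo ha
  have hNhi := hB.Nn_hi ha
  have hrx : |(r : ℝ)| ≤ x ^ 5 := by
    rw [hr2]
    apply (pow_le_pow_iff_left₀ (mul_nonneg (Nat.cast_nonneg _) (nd_nonneg _)) (by positivity) two_ne_zero).1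
    calc ((Nn a : ℝ) * nd (h / Nn a)) ^ 2 = (Nn a : ℝ) ^ 2 * nd (h / Nn a) ^ 2 := by ring
      _ ≤ (256 * x ^ 8) ^ 2 * β := by
          apply mul_le_mul _ h1 (sq_nonneg _) (by positivity)
          exact pow_le_pow_left₀ (Nat.cast_nonneg _) hNhi 2
      _ = 65536 * x ^ 10 * (β * x ^ 6) := by ring
      _ ≤ 65536 * x ^ 10 * (1 / 65536) := mul_le_mul_of_nonneg_left hβ2 (by positivity)
      _ = (x ^ 5) ^ 2 := by ring
  refine ⟨r, by exact_mod_cast hrx, fun j => ?_⟩
  set thr := (1 / (512 * (x : ℝ))) ^ 2 with hthr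
  have hsub : (P j).filter (fun p : ℕ => ¬ (p : ℤ) ∣ h - r) ⊆
      (P j).filter (fun p : ℕ => thr ≤ nd (h / Nn (Function.update a j p)) ^ 2) := by
    intro p hp
    rw [mem_filter] at hp ⊢
    refine ⟨hp.1, ?_⟩
    by_contra hlt
    rw [not_le] at hlt
    apply hp.2
    set a' := Function.update a j p with ha'
    have ha'm : a' ∈ Fintype.piFinset P := by
      rw [Fintype.mem_piFinset]
      intro l
      by_cases hl : l = j
      · subst hl; simpa [ha'] using hp.1
      · simpa [ha', Function.update_of_ne hl] using Fintype.mem_piFinset.1 ha l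
    obtain ⟨r', hr'1, hr'2⟩ := exists_residue h (Nn a') (hB.Nn_pos ha'm)
    have hN'hi := hB.Nn_hi ha'm
    have hnd : nd (h / Nn a') < 1 / (512 * (x : ℝ)) := by
      exact lt_of_pow_lt_pow_left₀ 2 (by positivity) hlt
    have hr'x : |(r' : ℝ)| < x ^ 7 / 2 := by
      rw [hr'2]
      calc (Nn a' : ℝ) * nd (h / Nn a') ≤ 256 * x ^ 8 * nd (h / Nn a') :=
            mul_le_mul_of_nonneg_right hN'hi (nd_nonneg _)
        _ < 256 * x ^ 8 * (1 / (512 * (x : ℝ))) := mul_lt_mul_of_pos_left hnd (by positivity)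
        _ = x ^ 7 / 2 := by field_simp; norm_num
    set m := ∏ l ∈ univ \ {j}, a l with hm
    have hNa : Nn a = a j * m := by
      have := Finset.prod_update_of_mem (mem_univ j) a (a j)
      rw [Function.update_eq_self] at this
      exact this
    have hNa' : Nn a' = p * m := Finset.prod_update_of_mem (mem_univ j) a p
    have hmx : (x : ℝ) ^ 7 ≤ m := by
      have : x ^ 7 ≤ m := by
        have h5 := Finset.prod_le_prod (s := (univ \ {j} : Finset (Fin 8))) (f := fun _ => x) (g := a)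
          (fun _ _ => Nat.zero_le _) (fun l _ => hB.lo l _ (Fintype.mem_piFinset.1 ha l))
        have hc : (univ \ {j} : Finset (Fin 8)).card = 7 := by
          rw [card_sdiff_of_subset (by simp)]
          simp
        rw [prod_const, hc] at h5
        exact h5
      exact_mod_cast this
    have hdvd : (m : ℤ) ∣ r - r' := by
      have d1 : (m : ℤ) ∣ h - r := dvd_trans (by rw [hNa]; push_cast; exact Dvd.intro_left _ rfl) hr1
      have d2 : (m : ℤ) ∣ h - r' := dvd_trans (by rw [hNa']; push_cast; exact Dvd.intro_left _ rfl) hr'1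
      have := dvd_sub d2 d1
      have e : r - r' = h - r' - (h - r) := by ring
      rw [e]; exact this
    have hrr : r = r' := by
      by_contra hne
      have hne' : r - r' ≠ 0 := sub_ne_zero.2 hne
      have h6 := Int.le_of_dvd (abs_pos.2 hne') ((dvd_abs _ _).2 hdvd)
      have h7 : (m : ℝ) ≤ |(r : ℝ) - r'| := by exact_mod_cast h6
      have h8 : |(r : ℝ) - r'| ≤ |(r : ℝ)| + |(r' : ℝ)| := abs_sub _ _
      have h9 : (x : ℝ) ^ 5 ≤ x ^ 7 / 2 := by
        have : (2 : ℝ) ≤ x ^ 2 := by nlinarith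
        have h10 : (0 : ℝ) < x ^ 5 := by positivity
        nlinarith
      linarith
    rw [hrr]
    exact dvd_trans (by rw [hNa']; push_cast; exact Dvd.intro _ rfl) hr'1
  have hmarkov : (((P j).filter (fun p : ℕ => thr ≤ nd (h / Nn (Function.update a j p)) ^ 2)).card : ℝ) * thr ≤
      β * (P j).card := by
    refine le_trans ?_ (h2 j)
    rw [← nsmul_eq_mul, ← sum_const]
    refine (sum_le_sum fun p hp => (mem_filter.1 hp).2).trans ?_
    exact sum_le_sum_of_subset_of_nonneg (filter_subset _ _) fun _ _ _ => sq_nonneg _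
  have hcj := card_le_card hsub
  have hfin : (((P j).filter (fun p : ℕ => thr ≤ nd (h / Nn (Function.update a j p)) ^ 2)).card : ℝ) ≤ (P j).card / 2 := by
    have hthr0 : 0 < thr := by positivity
    have hβthr : β ≤ thr / 2 := by
      rw [hthr]
      have h10 : β * x ^ 2 ≤ 1 / 524288 := by
        have h11 : (x : ℝ) ^ 4 ≥ 8 := by
          have : (x:ℝ)^4 ≥ (1179648 : ℝ)^4 := pow_le_pow_left₀ (by norm_num) hx 4
          have : (1179648 : ℝ)^4 ≥ 8 := by norm_num
          linarith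
        have h12 : β * x ^ 6 = β * x ^ 2 * x ^ 4 := by ring
        have h13 : 0 ≤ β * x ^ 2 := by positivity
        nlinarith
      have h14 : (1 / (512 * (x : ℝ))) ^ 2 / 2 = (1 / 524288) / x ^ 2 := by
        field_simp
        norm_num
      rw [h14, le_div_iff₀ (by positivity)]
      exact h10
    have h15 : (((P j).filter (fun p : ℕ => thr ≤ nd (h / Nn (Function.update a j p)) ^ 2)).card : ℝ) * thr ≤
        (P j).card / 2 * thr := by
      refine hmarkov.trans ?_
      calc β * (P j).card ≤ thr / 2 * (P j).card := mul_le_mul_of_nonneg_right hβthr (Nat.cast_nonneg _)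
        _ = _ := by ring
    exact le_of_mul_le_mul_right h15 hthr0
  have h16 : (((P j).filter (fun p : ℕ => ¬ (p : ℤ) ∣ h - r)).card : ℝ) ≤ (P j).card / 2 := by
    refine le_trans ?_ hfin
    exact_mod_cast hcj
  have h17 : (2 * ((P j).filter (fun p : ℕ => ¬ (p : ℤ) ∣ h - r)).card : ℝ) ≤ (P j).card := by linarith
  exact_mod_cast h17

end Pool.Agent.Q41.W
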